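import Pool.Agent.K7.H56.M.K

/-!
# Complex numbers that are not units above two; the Selmer group in the bad case
-/

set_option autoImplicit false
set_option linter.unusedSectionVars false

namespace Pool.Agent.K7.H56.M

open Polynomial

/-- a complex number `x` with `v x < 1` for all the valuations `v` of `ℂ` above `2`: a power of an odd
multiple of it is twice an algebraic integer -/
theorem even_of_val {x : ℂ}
    (h : ∀ (Γ : Type) [LinearOrderedCommGroupWithZero Γ] (v : Valuation ℂ Γ), v 2 < 1 → v x < 1) :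
    ∃ (m : ℤ) (k : ℕ), Odd m ∧ 0 < k ∧ IsIntegral ℤ (((m : ℂ) * x) ^ k / 2) := by
  by_cases hx : x = 0
  · exact ⟨1, 1, odd_one, one_pos, by rw [hx]; simp [isIntegral_zero]⟩
  obtain ⟨m, hm, hmx⟩ := Pool.Agent.K7.H73.BS.integral_of_val (x := x) fun Γ _ v hv => (h Γ v hv).le
  let A : Subring ℂ := (Polynomial.aeval (R := ℤ) x⁻¹).toRingHom.range
  have hA : ∀ f : ℤ[X], aeval x⁻¹ f ∈ A := fun f => ⟨f, rfl⟩
  have h2A : (2 : ℂ) ∈ A := by
    have := hA 2
    rwa [map_ofNat] at this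
  have hxA : x⁻¹ ∈ A := by
    have := hA X
    simpa using this
  let I : Ideal A := Ideal.span {⟨2, h2A⟩}
  have hI : I = ⊤ := by
    by_contra hne
    obtain ⟨B, hAB, hB⟩ := I.image_subset_nonunits_valuationSubring hne
    have k2 : B.valuation 2 < 1 := by
      rw [← ValuationSubring.mem_nonunits_iff]
      exact hB ⟨_, Ideal.subset_span rfl, rfl⟩
    have kx : B.valuation x⁻¹ ≤ 1 := (B.valuation_le_one_iff _).2 (hAB hxA)
    have h3 := h _ B.valuation k2
    rw [map_inv₀, inv_le_one₀ ((Valuation.pos_iff _).2 hx)] at kx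
    exact absurd h3 (not_lt.2 kx)
  have h1 : (1 : A) ∈ I := by rw [hI]; trivial
  obtain ⟨⟨_, f, rfl⟩, hf⟩ := Ideal.mem_span_singleton'.1 h1
  have hf' : aeval x⁻¹ f * 2 = 1 := congrArg Subtype.val hf
  refine ⟨m, f.natDegree + 1, hm, Nat.succ_pos _, ?_⟩
  set y : ℂ := (m : ℂ) * x with hy
  have e : y ^ (f.natDegree + 1) / 2 =
      ∑ i ∈ Finset.range (f.natDegree + 1), ((f.coeff i * m ^ i : ℤ) : ℂ) * y ^ (f.natDegree + 1 - i) := by
    have e1 : y ^ (f.natDegree + 1) / 2 = y ^ (f.natDegree + 1) * aeval x⁻¹ f := by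
      rw [div_eq_iff two_ne_zero, mul_assoc, hf', mul_one]
    rw [e1, aeval_eq_sum_range, Finset.mul_sum]
    refine Finset.sum_congr rfl fun i hi => ?_
    have hi' : i ≤ f.natDegree + 1 := (Finset.mem_range.1 hi).le
    have e2 : y ^ (f.natDegree + 1) = y ^ (f.natDegree + 1 - i) * y ^ i := by
      rw [← pow_add, Nat.sub_add_cancel hi']
    rw [e2, zsmul_eq_mul, hy]
    push_cast
    rw [mul_pow (m : ℂ) x i, inv_pow]
    have hxi : x ^ i ≠ 0 := pow_ne_zero _ hx
    field_simp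
  rw [e]
  refine IsIntegral.sum _ fun i _ => ?_
  refine IsIntegral.mul ?_ (hmx.pow _)
  exact isIntegral_algebraMap (R := ℤ) (A := ℂ) (x := f.coeff i * m ^ i)

end Pool.Agent.K7.H56.M

namespace Pool.Agent.K7.H56.M

open NumberField IsDedekindDomain WithZero
open Pool.Agent.Y696
open scoped Classical

/-- the equation over the integers -/
def W0 : WeierstrassCurve ℤ := ⟨0, 0, 1, 0, 0⟩

lemma W0_base (K : Type) [Field K] : Pool.Agent.Y702.G.base W0 K = E27 K := by
  ext <;> simp [Pool.Agent.Y702.G.base, W0, E27]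

lemma W0_Δ : W0.Δ = -27 := by
  simp only [W0, WeierstrassCurve.Δ, WeierstrassCurve.b₂, WeierstrassCurve.b₄,
    WeierstrassCurve.b₆, WeierstrassCurve.b₈]
  norm_num

lemma W0_cub {K : Type} [Field K] [NumberField K] {n : ℕ} (hn : Module.finrank ℚ K = 2 ^ n) (x : K) :
    Pool.Agent.TH115.GD.cub (Pool.Agent.Y702.G.sh W0) x ≠ 0 := by
  intro hx
  have hx' : x ^ 3 + 16 = 0 := by
    have h := hx
    unfold Pool.Agent.TH115.GD.cub Pool.Agent.Y702.G.sh at h
    simp only [W0, WeierstrassCurve.b₂, WeierstrassCurve.b₄, WeierstrassCurve.b₆] at h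
    norm_num at h
    exact h
  apply no_cube_two hn (-x / 2)
  have : (-x / 2) ^ 3 = -(x ^ 3) / 8 := by ring
  rw [this]
  linear_combination (-1 / 8 : K) * hx'

/-- odd torsion -/
lemma tors_E {K : Type} [Field K] [NumberField K] {n : ℕ} (hn : Module.finrank ℚ K = 2 ^ n) :
    Odd (Nat.card {P : (E27 K).toAffine.Point | ∃ n : ℕ, 0 < n ∧ n • P = 0}) := by
  have h := Pool.Agent.R425.G.tors_odd (K := K) W0 (by rw [W0_Δ]; norm_num) (W0_cub hn)
  rw [W0_base] at h
  exact h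

/-- the rank -/
lemma rank_E (K : Type) [Field K] [NumberField K] :
    Module.finrank ℤ (E27 K).toAffine.Point = 0 ↔ Finite (E27 K).toAffine.Point := by
  have h := Pool.Agent.R425.G.rank_iff (K := K) W0 (by rw [W0_Δ]; norm_num)
  rw [W0_base] at h
  exact h

/-- the algebraic side in the bad case -/
theorem alg_bad {K : Type} [Field K] [NumberField K] [IsGalois ℚ K] {n : ℕ}
    (hn : Module.finrank ℚ K = 2 ^ n) {l : ℕ} (hl : l.Prime) (hl2 : l ≠ 2) (hl3 : l ≠ 3)
    (hld : (l : ℤ) ∣ discr K) {x : ZMod l} (hx : x ^ 3 = 2) :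
    ¬ (Finite (E27 K).toAffine.Point ∧
      ∀ s : Pool.Agent.TH841.NF.D.Sha (E27 K), 2 • s = 0 → s = 0) := by
  rw [← W0_base]
  rintro ⟨hfin, hsha⟩
  have hW : W0.Δ ≠ 0 := by rw [W0_Δ]; norm_num
  have hS := Pool.Agent.R425.G.selT_of W0 K hW (W0_cub hn) hfin hsha
  obtain ⟨a, rfl⟩ := ZMod.intCast_surjective x
  have h1 : (l : ℤ) ∣ a ^ 3 - 2 := by
    rw [← ZMod.intCast_zmod_eq_zero_iff_dvd]
    push_cast
    rw [hx, sub_self]
  obtain ⟨b, hb⟩ := h1
  have hlD : ¬ (l : ℤ) ∣ 2 * W0.Δ := by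
    rw [W0_Δ]
    intro h
    have h' : (l : ℤ) ∣ ((54 : ℕ) : ℤ) := by
      have : (2 * -27 : ℤ) = -((54 : ℕ) : ℤ) := by norm_num
      rw [this, dvd_neg] at h
      exact h
    have h2 : l ∣ 2 * 3 ^ 3 := by
      have := Int.natCast_dvd_natCast.1 h'
      norm_num
      exact this
    rcases (Nat.Prime.dvd_mul hl).1 h2 with h3 | h3
    · exact hl2 ((Nat.prime_dvd_prime_iff_eq hl Nat.prime_two).1 h3)
    · exact hl3 ((Nat.prime_dvd_prime_iff_eq hl Nat.prime_three).1 (hl.dvd_of_dvd_pow h3))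
  refine Pool.Agent.R425.G.no_root_ram W0 K (by rw [W0_Δ]; norm_num) (W0_cub hn) hS hl hlD
    (Pool.Agent.R425.ev_of_disc K hn hl hld) (-2 * a) ?_
  have e : (-2 * a) ^ 3 + W0.b₂ * (-2 * a) ^ 2 + 8 * W0.b₄ * (-2 * a) + 16 * W0.b₆ = (l : ℤ) * (-8 * b) := by
    simp only [W0, WeierstrassCurve.b₂, WeierstrassCurve.b₄, WeierstrassCurve.b₆]
    linear_combination (-8) * hb
  rw [e]
  exact Dvd.intro _ rfl

end Pool.Agent.K7.H56.M
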