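import Pool.Agent.K7.H70.RC.H

/-!
# Reciprocity modulo the ramified primes, for extensions of exponent two
-/

set_option autoImplicit false
set_option linter.unusedSectionVars false

open NumberField IsDedekindDomain WithZero

namespace Pool.Agent.K7.H56.M

open Pool.Agent.R430
open Pool.Agent.K7.H70.RC
open Pool.Agent.Y688.QRec
open Pool.Agent.Y688 (dn dn_mem dn_surj)
open UniqueFactorizationMonoid (normalizedFactors)

section
variable {F K : Type} [Field F] [NumberField F] [Field K] [NumberField K] [Algebra F K] [IsGalois F K]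

/-- the prime is ramified over `F` -/
def Rm (F : Type) {K : Type} [Field F] [NumberField F] [Field K] [NumberField K] [Algebra F K]
    (w : HeightOneSpectrum (𝓞 K)) : Prop :=
  ∃ σ : Gal(K/F), σ ≠ 1 ∧ ∀ x : 𝓞 K, σ • x - x ∈ w.asIdeal

lemma not_rm {w : HeightOneSpectrum (𝓞 K)} (h : ¬ Rm F w) (σ : Gal(K/F))
    (hσ : ∀ x : 𝓞 K, σ • x - x ∈ w.asIdeal) : σ = 1 := by
  by_contra hne
  exact h ⟨σ, hne, hσ⟩

/-- the residue symbols modulo the generator -/
lemma jac_one {d α : 𝓞 F} {θ : 𝓞 K} (hd0 : d ≠ 0) (hθ : θ ^ 2 = algebraMap (𝓞 F) (𝓞 K) d)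
    (hdα : IsCoprime d α) (hα : ∀ w : HeightOneSpectrum (𝓞 K), Rm F w → α - 1 ∈ (dn F w).asIdeal) :
    jac (Ideal.span {d}) α = 1 := by
  classical
  have hs0 : Ideal.span {d} ≠ 0 := by
    rw [Ideal.zero_eq_bot, Ne, Ideal.span_singleton_eq_bot]
    exact hd0
  have hθK : (θ : K) ^ 2 = algebraMap F K (d : F) := by
    have := congrArg (fun z : 𝓞 K => (z : K)) hθ
    simp only [cp] at this
    exact this
  unfold jac
  rw [Finset.prod_multiset_map_count]
  refine Finset.prod_eq_one fun P hP => ?_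
  rw [Multiset.mem_toFinset] at hP
  have hPp : Prime P := UniqueFactorizationMonoid.prime_of_normalized_factor P hP
  have hPd : P ∣ Ideal.span {d} := UniqueFactorizationMonoid.dvd_of_mem_normalizedFactors hP
  have hPprime : P.IsPrime := Ideal.isPrime_of_prime hPp
  have hdP : d ∈ P := Ideal.dvd_span_singleton.1 hPd
  have hαP : α ∉ P := cop_mem hdα hPprime.ne_top hdP
  let v : HeightOneSpectrum (𝓞 F) := ⟨P, hPprime, hPp.ne_zero⟩
  obtain ⟨w, hw⟩ := dn_surj (K := K) v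
  by_cases hn : Rm F w
  · have h0 : α - 1 ∈ P := by
      have := hα w hn
      rw [hw] at this
      exact this
    have h1 : qc P α = 1 := by
      unfold qc
      rw [if_neg hαP, if_pos]
      refine ⟨1, ?_⟩
      have : (1 : 𝓞 F) ^ 2 - α = -(α - 1) := by ring
      rw [this]
      exact P.neg_mem h0
    rw [h1, one_pow]
  · have hev := evn_of_sq (not_rm hn) hθK
    rw [hw] at hev
    have hcount : Even ((normalizedFactors (Ideal.span {d})).count P) := by
      by_contra hodd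
      rw [Nat.not_even_iff_odd] at hodd
      obtain ⟨k, hk⟩ := hodd
      have h1 := UniqueFactorizationMonoid.emultiplicity_eq_count_normalizedFactors hPp.irreducible hs0
      rw [normalize_eq, hk] at h1
      have h2 : P ^ (2 * k + 1) ∣ Ideal.span {d} := by
        rw [pow_dvd_iff_le_emultiplicity, h1]
      have h3 := hev k h2
      change P ^ (2 * k + 2) ∣ _ at h3
      rw [pow_dvd_iff_le_emultiplicity, h1] at h3
      have h4 : (2 * k + 2 : ℕ) ≤ 2 * k + 1 := by exact_mod_cast h3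
      omega
    obtain ⟨k, hk⟩ := hcount
    rw [hk, pow_add, ← mul_pow, qc_sq hαP, one_pow]

/-- the value at an element with one dyadic factor -/
lemma XX_dy {a : F} (ha : a ^ 2 = -3) {r : ℕ} (hF : Module.finrank ℚ F = 2 * r)
    (h2v : ∀ v : HeightOneSpectrum (𝓞 F), (2 : 𝓞 F) ∈ v.asIdeal →
      v.valuation F 2 = exp (-1 : ℤ)) (X : Gal(K/F) →* ℂˣ) (hX : ∀ σ, X σ ^ 2 = 1)
    (hr2 : ∀ w : HeightOneSpectrum (𝓞 K), (2 : 𝓞 F) ∈ (dn F w).asIdeal → ¬ Rm F w)
    {β : 𝓞 F} (hβ0 : β ≠ 0) (hβ : ∀ w : HeightOneSpectrum (𝓞 K), Rm F w → β - 1 ∈ (dn F w).asIdeal)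
    (hcase : IsCoprime β 2 ∨ ∃ P C : Ideal (𝓞 F), P.IsPrime ∧ P ≠ ⊥ ∧ (2 : 𝓞 F) ∈ P ∧
      IsCoprime (Ideal.span {(2 : 𝓞 F)}) C ∧ Ideal.span {β} = P * C) :
    XX X (Ideal.span {β}) = 1 := by
  have hun2 : ∀ w : HeightOneSpectrum (𝓞 K), (2 : 𝓞 F) ∈ (dn F w).asIdeal →
      ∀ σ : Gal(K/F), (∀ x : 𝓞 K, σ • x - x ∈ w.asIdeal) → σ = 1 := fun w hw =>
    not_rm (hr2 w hw)
  have hunM : ∀ w : HeightOneSpectrum (𝓞 K), 2 * β ∈ (dn F w).asIdeal →
      ∀ σ : Gal(K/F), (∀ x : 𝓞 K, σ • x - x ∈ w.asIdeal) → σ = 1 := by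
    intro w hw
    rcases (dn F w).isPrime.mem_or_mem hw with h | h
    · exact hun2 w h
    · refine not_rm fun hn => (dn F w).isPrime.ne_top ?_
      rw [Ideal.eq_top_iff_one]
      have : (1 : 𝓞 F) = β - (β - 1) := by ring
      rw [this]
      exact Ideal.sub_mem _ h (hβ w hn)
  obtain ⟨d, θ, hd0, hdM, hθ, hact⟩ := exists_d X hX (mul_ne_zero two_ne_zero hβ0)
    (Dvd.intro _ rfl) hunM
  have hd2 : IsCoprime d 2 := hdM.of_mul_right_left
  have hdβ : IsCoprime d β := hdM.of_mul_right_right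
  obtain ⟨s, hs⟩ := sq_mod_four h2v hun2 hθ
  obtain ⟨δ, hδ, hne, hpos, hodd⟩ := recip_W ha hF hd0 hβ0 hd2 hdβ ⟨s, hs⟩
  rw [jac_one hd0 hθ hdβ hβ, one_mul] at hpos
  suffices hXX : HH δ d β = XX X (Ideal.span {β}) * HH δ 1 β by
    rw [hXX, mul_div_cancel_right₀ _ hne] at hpos
    exact pos_pm hpos (XX_sq X hX _)
  have hdβI := span_cop hdβ
  rcases hcase with h2 | ⟨P, C, hP, hP0, h2P, h2C, hPC⟩
  · rw [XX_odd X hX hθ hact (span_cop h2.symm) hdβI]
    exact hodd h2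
  · obtain ⟨a', ha'⟩ := hs
    have hd : d = s ^ 2 + 4 * a' := by linear_combination ha'
    have hs2 : IsCoprime s 2 := by
      obtain ⟨p, q, hpq⟩ := hd2
      exact ⟨p * s, 2 * p * a' + q, by linear_combination hpq - p * hd⟩
    have hs4 : IsCoprime s (2 * 2) := hs2.mul_right hs2
    obtain ⟨s', k, hk⟩ := hs4
    have h4 : (2 * 2 : 𝓞 F) ∈ Ideal.span {(2 : 𝓞 F)} * P :=
      Ideal.mul_mem_mul (Ideal.mem_span_singleton_self _) h2P
    have hs' : s' * s - 1 ∈ Ideal.span {(2 : 𝓞 F)} * P := by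
      have : s' * s - 1 = -k * (2 * 2) := by linear_combination hk
      rw [this]
      exact Ideal.mul_mem_left _ _ h4
    have hC0 : C ≠ 0 := by
      rintro rfl
      rw [mul_zero, Ideal.zero_eq_bot, Ideal.span_singleton_eq_bot] at hPC
      exact hβ0 hPC
    have hPp : Prime P := Ideal.prime_of_isPrime hP0 hP
    let v : HeightOneSpectrum (𝓞 F) := ⟨P, hP, hP0⟩
    obtain ⟨f, hf⟩ := norm_two (v := v) h2P
    have hf' : Nat.card (𝓞 F ⧸ P) = 2 ^ f := by
      rw [← hf, Ideal.absNorm_apply, Submodule.cardQuot_apply]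
    have hdC : IsCoprime (Ideal.span {d}) C := by
      rw [hPC] at hdβI
      exact hdβI.of_mul_right_right
    obtain ⟨g1, g2⟩ := dyadic_G' hδ hP hP0 h2P hC0 h2C ⟨d, by ring⟩ hPC hd hs' hdC hf'
    obtain ⟨w, hw1, hw2⟩ := frP_spec (K := K) v
    obtain ⟨t1, t2⟩ := frob_two X hX hθ hact (v := v) h2P hd (Ideal.mul_le_right hs') hf hw1 hw2
    rw [hPC, XX_mul X hP0 hC0, XX_prime X hPp, XX_odd X hX hθ hact h2C hdC]
    by_cases hsum : ∑ i ∈ Finset.range f, (a' * s' ^ 2) ^ 2 ^ i ∈ P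
    · have h1 : X (frP K P) = 1 := by
        rcases unit_sq_pm (hX (frP K P)) with h | h
        · exact h
        · exact absurd hsum (t2 h)
      rw [g1 hsum, h1]
      simp
    · have h1 : X (frP K P) = -1 := by
        rcases unit_sq_pm (hX (frP K P)) with h | h
        · exact absurd (t1 h) hsum
        · exact h
      rw [(g2 hsum).1, h1]
      simp

theorem XX_ind {a : F} (ha : a ^ 2 = -3) {r : ℕ} (hF : Module.finrank ℚ F = 2 * r)
    (h2v : ∀ v : HeightOneSpectrum (𝓞 F), (2 : 𝓞 F) ∈ v.asIdeal →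
      v.valuation F 2 = exp (-1 : ℤ)) (X : Gal(K/F) →* ℂˣ) (hX : ∀ σ, X σ ^ 2 = 1) {n : ℕ}
    (hno : Odd n) (hnr : ∀ w : HeightOneSpectrum (𝓞 K), Rm F w → (n : 𝓞 F) ∈ (dn F w).asIdeal)
    (m : ℕ) : ∀ α : 𝓞 F, α ≠ 0 →
    (∀ w : HeightOneSpectrum (𝓞 K), Rm F w → α - 1 ∈ (dn F w).asIdeal) →
    ndy (Ideal.span {α}) = m → XX X (Ideal.span {α}) = 1 := by
  classical
  have hsp : ∀ {x : 𝓞 F}, x ≠ 0 → Ideal.span {x} ≠ 0 := by
    intro x hx
    rw [Ideal.zero_eq_bot, Ne, Ideal.span_singleton_eq_bot]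
    exact hx
  have hr2 : ∀ w : HeightOneSpectrum (𝓞 K), (2 : 𝓞 F) ∈ (dn F w).asIdeal → ¬ Rm F w := by
    intro w h2 hr
    obtain ⟨k, hk⟩ := hno
    apply (dn F w).isPrime.ne_top
    rw [Ideal.eq_top_iff_one]
    have : (1 : 𝓞 F) = (n : 𝓞 F) - 2 * (k : 𝓞 F) := by
      rw [hk]
      push_cast
      ring
    rw [this]
    exact Ideal.sub_mem _ (hnr w hr) (Ideal.mul_mem_right _ _ h2)
  have hof : ∀ {x : 𝓞 F}, (n : 𝓞 F) ∣ x - 1 →
      ∀ w : HeightOneSpectrum (𝓞 K), Rm F w → x - 1 ∈ (dn F w).asIdeal := by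
    rintro x ⟨c, hc⟩ w hw
    rw [hc]
    exact Ideal.mul_mem_right _ _ (hnr w hw)
  induction m with
  | zero =>
    intro α hα0 hα h0
    rw [ndy_zero_iff (hsp hα0)] at h0
    refine XX_dy ha hF h2v X hX hr2 hα0 hα (Or.inl ?_)
    rw [← Ideal.isCoprime_span_singleton_iff]
    exact h0.symm
  | succ m ih =>
    intro α hα0 hα hm
    obtain ⟨P, hP⟩ : ∃ P, P ∈ (normalizedFactors (Ideal.span {α})).filter (fun P => (2 : 𝓞 F) ∈ P) := by
      apply Multiset.card_pos_iff_exists_mem.1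
      change 0 < ndy (Ideal.span {α})
      omega
    rw [Multiset.mem_filter] at hP
    obtain ⟨hP1, h2P⟩ := hP
    have hPp : Prime P := UniqueFactorizationMonoid.prime_of_normalized_factor P hP1
    have hPα : α ∈ P := Ideal.dvd_span_singleton.1 (UniqueFactorizationMonoid.dvd_of_mem_normalizedFactors hP1)
    have hP0 : P ≠ ⊥ := hPp.ne_zero
    have hPprime : P.IsPrime := Ideal.isPrime_of_prime hPp
    obtain ⟨β, C, hβ0, hβ, h2C, hPC⟩ := exists_beta hno hPprime hP0 h2P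
    have hC0 : C ≠ 0 := by
      rintro rfl
      rw [mul_zero] at hPC
      exact hsp hβ0 hPC
    -- the auxiliary element
    have hCn : IsCoprime C (Ideal.span {2 * (n : 𝓞 F)}) := by
      rw [← Ideal.span_singleton_mul_span_singleton]
      refine IsCoprime.mul_right h2C.symm ?_
      have h1 : IsCoprime (Ideal.span {β}) (Ideal.span {(n : 𝓞 F)}) := by
        rw [Ideal.isCoprime_span_singleton_iff]
        obtain ⟨c, hc⟩ := hβ
        exact ⟨1, -c, by linear_combination hc⟩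
      rw [hPC] at h1
      exact h1.of_mul_left_right
    obtain ⟨γ, hγ, k, hk, hγk⟩ := (Ideal.isCoprime_iff_exists).1 hCn
    rw [Ideal.mem_span_singleton] at hk
    obtain ⟨k', rfl⟩ := hk
    have hγn : (n : 𝓞 F) ∣ γ - 1 := ⟨-(2 * k'), by linear_combination hγk⟩
    have hγ2 : IsCoprime γ 2 := ⟨1, (n : 𝓞 F) * k', by linear_combination hγk⟩
    have hγ0 : γ ≠ 0 := by
      rintro rfl
      obtain ⟨u, v, huv⟩ := hγ2
      apply hPprime.ne_top
      rw [Ideal.eq_top_iff_one, ← huv, mul_zero, zero_add]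
      exact P.mul_mem_left _ h2P
    have h1 : γ * α ∈ P * C := by
      rw [mul_comm γ α]
      exact Ideal.mul_mem_mul hPα hγ
    rw [← hPC, Ideal.mem_span_singleton] at h1
    obtain ⟨α', hα'⟩ := h1
    have hα'0 : α' ≠ 0 := by
      rintro rfl
      rw [mul_zero] at hα'
      exact mul_ne_zero hγ0 hα0 hα'
    have hα'n : ∀ w : HeightOneSpectrum (𝓞 K), Rm F w → α' - 1 ∈ (dn F w).asIdeal := by
      intro w hw
      have c1 := hof hγn w hw
      have c2 := hα w hw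
      have c3 := hof hβ w hw
      have e : α' - 1 = (γ - 1) * α + (α - 1) - (β - 1) * α' := by
        linear_combination -hα'
      rw [e]
      exact Ideal.sub_mem _ (Ideal.add_mem _ (Ideal.mul_mem_right _ _ c1) c2)
        (Ideal.mul_mem_right _ _ c3)
    have hspan : Ideal.span {γ} * Ideal.span {α} = Ideal.span {β} * Ideal.span {α'} := by
      rw [Ideal.span_singleton_mul_span_singleton, Ideal.span_singleton_mul_span_singleton, hα']
    have hγz : ndy (Ideal.span {γ}) = 0 := by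
      rw [ndy_zero_iff (hsp hγ0)]
      exact span_cop hγ2.symm
    have hβz : ndy (Ideal.span {β}) = 1 := by
      rw [hPC, ndy_mul hP0 hC0, ndy_prime hPp h2P, (ndy_zero_iff hC0).2 h2C]
    have hn' : ndy (Ideal.span {α'}) = m := by
      have h2 := congrArg ndy hspan
      rw [ndy_mul (hsp hγ0) (hsp hα0), ndy_mul (hsp hβ0) (hsp hα'0), hγz, hβz, hm] at h2
      omega
    have h3 := congrArg (XX X) hspan
    rw [XX_mul X (hsp hγ0) (hsp hα0), XX_mul X (hsp hβ0) (hsp hα'0), ih α' hα'0 hα'n hn',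
      XX_dy ha hF h2v X hX hr2 hγ0 (hof hγn) (Or.inl hγ2),
      XX_dy ha hF h2v X hX hr2 hβ0 (hof hβ) (Or.inr ⟨P, C, hPprime, hP0, h2P, h2C, hPC⟩)] at h3
    rwa [one_mul, one_mul] at h3

/-- **the reciprocity law modulo the ramified primes** -/
theorem XX_one {a : F} (ha : a ^ 2 = -3) {r : ℕ} (hF : Module.finrank ℚ F = 2 * r)
    (h2v : ∀ v : HeightOneSpectrum (𝓞 F), (2 : 𝓞 F) ∈ v.asIdeal →
      v.valuation F 2 = exp (-1 : ℤ)) (X : Gal(K/F) →* ℂˣ) (hX : ∀ σ, X σ ^ 2 = 1) {n : ℕ}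
    (hno : Odd n) (hnr : ∀ w : HeightOneSpectrum (𝓞 K), Rm F w → (n : 𝓞 F) ∈ (dn F w).asIdeal)
    {α : 𝓞 F} (hα0 : α ≠ 0)
    (hα : ∀ w : HeightOneSpectrum (𝓞 K), Rm F w → α - 1 ∈ (dn F w).asIdeal) :
    XX X (Ideal.span {α}) = 1 :=
  XX_ind ha hF h2v X hX hno hnr _ α hα0 hα rfl

end

end Pool.Agent.K7.H56.M
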