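import Pool.Agent.K7.H56.M.A
import Pool.Agent.K7.H56.M.B
import Pool.Agent.K7.H70.AS.B

/-!
# Quadratic extensions: the primitive character and the factorization of the L-function
-/

set_option autoImplicit false
set_option linter.unusedSectionVars false

open Complex NumberField IsDedekindDomain
open scoped PeriodPair nonZeroDivisors Pointwise

namespace Pool.Agent.K7.H56.M

open Pool.Agent.K7.H56
open Pool.Agent.R430
open Pool.Agent.Y696 Pool.Agent.W192.HK Pool.Agent.TH936.CM H667R3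
open Pool.Agent.TH936.PU
open Pool.Agent.K7.H70.AS (VV_prod mero_eq2 gI_diff hX1)
open Pool.Agent.Y688 (NI HL euler dn_mem dn_surj)
open UniqueFactorizationMonoid (normalizedFactors)

section
variable {N K : Type} [Field N] [NumberField N] [Field K] [NumberField K] [Algebra N K]
variable {ι : Pool.Agent.Y688.RR →+* 𝓞 N}

lemma gI_over {P : HeightOneSpectrum (𝓞 N)} {w : HeightOneSpectrum (𝓞 K)} (hw : und w = P) {f : ℕ}
    (hf : nK w = nK P ^ f) (s : ℂ) :
    gI ((algebraMap (𝓞 N) (𝓞 K)).comp ι) (X0 1) s w.asIdeal = (gI ι (X0 1) s P.asIdeal) ^ f := by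
  obtain ⟨f₀, hf₀, hn⟩ := deg_base (iE ι) P
  have hbel : bel (iE ((algebraMap (𝓞 N) (𝓞 K)).comp ι)) w = bel (iE ι) P := by
    subst hw
    rfl
  have h1 : nK w = Nat.card (eis ⧸ (bel (iE ((algebraMap (𝓞 N) (𝓞 K)).comp ι)) w).asIdeal) ^
      (f₀ * f) := by
    rw [hbel, hf, hn, pow_mul]
  have h2 : ((Ideal.absNorm w.asIdeal : ℕ) : ℂ) ^ (-s) =
      (((Ideal.absNorm P.asIdeal : ℕ) : ℂ) ^ (-s)) ^ f := by
    have h3 : Ideal.absNorm w.asIdeal = Ideal.absNorm P.asIdeal ^ f := hf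
    rw [h3]
    push_cast
    rw [← Complex.natCast_cpow_natCast_mul, Complex.cpow_nat_mul]
  unfold gI
  rw [hX1, hX1, PN_prime w h1, PN_prime P hn, hbel, h2, one_mul, one_mul, pow_mul, mul_pow]

variable [IsGalois N K]

lemma eq_one_or (h2 : Module.finrank N K = 2) {σ : Gal(K/N)} (hσ : σ ≠ 1) (g : Gal(K/N)) :
    g = 1 ∨ g = σ := by
  classical
  have hcard : Nat.card Gal(K/N) = 2 := by rw [IsGalois.card_aut_eq_finrank, h2]
  by_contra hcon
  push Not at hcon
  obtain ⟨h3, h4⟩ := hcon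
  have : Fintype Gal(K/N) := Fintype.ofFinite _
  rw [Nat.card_eq_fintype_card] at hcard
  have h5 : ({1, σ, g} : Finset Gal(K/N)).card = 3 := by
    rw [Finset.card_insert_of_notMem, Finset.card_insert_of_notMem, Finset.card_singleton]
    · rw [Finset.mem_singleton]
      exact fun h => h4 h.symm
    · rw [Finset.mem_insert, Finset.mem_singleton]
      rintro (h | h)
      · exact hσ h.symm
      · exact h3 h.symm
  have h6 := Finset.card_le_univ ({1, σ, g} : Finset Gal(K/N))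
  omega

lemma comm2 (h2 : Module.finrank N K = 2) (σ τ : Gal(K/N)) : σ * τ = τ * σ := by
  by_cases hσ : σ = 1
  · rw [hσ, one_mul, mul_one]
  · rcases eq_one_or h2 hσ τ with h | h
    · rw [h, one_mul, mul_one]
    · rw [h]

lemma sq2 (h2 : Module.finrank N K = 2) (σ : Gal(K/N)) : σ * σ = 1 := by
  have hcard : Nat.card Gal(K/N) = 2 := by rw [IsGalois.card_aut_eq_finrank, h2]
  have := pow_card_eq_one' (x := σ)
  rwa [hcard, pow_two] at this

/-- the unramified primes -/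
theorem split_unr (h2 : Module.finrank N K = 2) {P : HeightOneSpectrum (𝓞 N)}
    (hP : ¬ ∃ w : HeightOneSpectrum (𝓞 K), Rm N w ∧ Pool.Agent.Y688.dn N w = P) :
    (∀ w : HeightOneSpectrum (𝓞 K), und w = P → nK w = nK P ^ orderOf (frP K P.asIdeal)) ∧
    Fintype.card {w : HeightOneSpectrum (𝓞 K) // und w = P} = 2 / orderOf (frP K P.asIdeal) := by
  classical
  have hcard : Nat.card Gal(K/N) = 2 := by rw [IsGalois.card_aut_eq_finrank, h2]
  have hpmax : P.asIdeal.IsMaximal := P.isPrime.isMaximal P.ne_bot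
  have hfp : Finite (𝓞 N ⧸ P.asIdeal) := Ideal.finiteQuotientOfFreeOfNeBot P.asIdeal P.ne_bot
  obtain ⟨w0, hw0, hfr⟩ := frP_spec (K := K) P
  have key : ∀ v : HeightOneSpectrum (𝓞 K), und v = P →
      nK v = nK P ^ orderOf (frP K P.asIdeal) ∧
      (P.asIdeal.primesOver (𝓞 K)).ncard * orderOf (frP K P.asIdeal) = 2 := by
    intro v hv
    have hvmax : v.asIdeal.IsMaximal := v.isPrime.isMaximal v.ne_bot
    have hfv : Finite (𝓞 K ⧸ v.asIdeal) := Ideal.finiteQuotientOfFreeOfNeBot v.asIdeal v.ne_bot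
    have hover : v.asIdeal.LiesOver P.asIdeal := ⟨by rw [← hv]; rfl⟩
    have h5 := Pool.Agent.W164.RC.split_abs Gal(K/N) P.asIdeal v.asIdeal (fun g hg => by
      by_contra hne
      exact hP ⟨v, ⟨g, hne, hg⟩, hv⟩) (frP K P.asIdeal) (by
      intro x
      have h6 := frob_all (comm2 h2) (w0 := w0) (w := v) (by
        have h7 : Pool.Agent.Y688.dn N w0 = und v := hw0.trans hv.symm
        exact congrArg HeightOneSpectrum.asIdeal h7) hfr x
      rw [Ideal.absNorm_apply, Submodule.cardQuot_apply] at h6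
      exact h6)
    rw [hcard] at h5
    refine ⟨?_, h5.2⟩
    rw [← card_nm, ← card_nm]
    exact h5.1
  refine ⟨fun v hv => (key v hv).1, ?_⟩
  have hv0 : und w0 = P := hw0
  have h6 := (key w0 hv0).2
  have h7 : Fintype.card {v : HeightOneSpectrum (𝓞 K) // und v = P} =
      (P.asIdeal.primesOver (𝓞 K)).ncard := by
    rw [← Nat.card_eq_fintype_card, ← Nat.card_coe_set_eq]
    refine Nat.card_congr
      { toFun := fun v => ⟨v.1.asIdeal, v.1.isPrime,
          ⟨(congrArg HeightOneSpectrum.asIdeal v.2).symm⟩⟩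
        invFun := fun Q => ⟨⟨Q.1, Q.2.1, ?_⟩, ?_⟩
        left_inv := fun v => rfl
        right_inv := fun Q => rfl }
    · have := Q.2.2
      exact Ideal.ne_bot_of_liesOver_of_ne_bot P.ne_bot Q.1
    · apply HeightOneSpectrum.ext
      exact Q.2.2.over.symm
  rw [h7, ← h6, Nat.mul_div_cancel _ (orderOf_pos _)]

/-- the ramified primes -/
theorem split_ram (h2 : Module.finrank N K = 2) {w0 : HeightOneSpectrum (𝓞 K)} (h0 : Rm N w0)
    (hodd : (2 : 𝓞 N) ∉ (Pool.Agent.Y688.dn N w0).asIdeal) :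
    (∀ w : HeightOneSpectrum (𝓞 K), und w = Pool.Agent.Y688.dn N w0 → w = w0) ∧ nK w0 = nK (Pool.Agent.Y688.dn N w0) := by
  classical
  obtain ⟨σ, hσ, hin⟩ := h0
  have hp0 := w0.isPrime
  constructor
  · intro w hw
    have hp := w.isPrime
    have hu : w0.asIdeal.under (𝓞 N) = w.asIdeal.under (𝓞 N) :=
      (congrArg HeightOneSpectrum.asIdeal hw).symm
    obtain ⟨g, hg⟩ := Algebra.IsInvariant.exists_smul_of_under_eq (𝓞 N) (𝓞 K) Gal(K/N)
      w0.asIdeal w.asIdeal hu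
    apply HeightOneSpectrum.ext
    rw [hg]
    rcases eq_one_or h2 hσ g with h | h
    · rw [h, one_smul]
    · rw [h]
      have h3 : σ⁻¹ = σ := by
        rw [inv_eq_iff_mul_eq_one]
        exact sq2 h2 σ
      ext x
      rw [Ideal.mem_pointwise_smul_iff_inv_smul_mem, h3]
      constructor
      · intro hx
        have : x = σ • x - (σ • x - x) := by ring
        rw [this]
        exact Ideal.sub_mem _ hx (hin x)
      · intro hx
        have : σ • x = (σ • x - x) + x := by ring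
        rw [this]
        exact Ideal.add_mem _ (hin x) hx
  · set P := Pool.Agent.Y688.dn N w0 with hP
    have hpmax : P.asIdeal.IsMaximal := P.isPrime.isMaximal P.ne_bot
    have hvmax : w0.asIdeal.IsMaximal := w0.isPrime.isMaximal w0.ne_bot
    have hover : P.asIdeal ≤ w0.asIdeal.comap (algebraMap (𝓞 N) (𝓞 K)) := le_rfl
    let _ : Field (𝓞 N ⧸ P.asIdeal) := Ideal.Quotient.field _
    have : Nontrivial (𝓞 K ⧸ w0.asIdeal) := Ideal.Quotient.nontrivial_iff.2 hvmax.ne_top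
    let f : (𝓞 N ⧸ P.asIdeal) →+* (𝓞 K ⧸ w0.asIdeal) :=
      Ideal.quotientMap w0.asIdeal (algebraMap (𝓞 N) (𝓞 K)) hover
    have hinj : Function.Injective f := f.injective
    have hsurj : Function.Surjective f := by
      intro y
      obtain ⟨x, rfl⟩ := Ideal.Quotient.mk_surjective y
      obtain ⟨t, ht⟩ : ∃ t : 𝓞 N, algebraMap (𝓞 N) (𝓞 K) t = x + σ • x := by
        refine Algebra.IsInvariant.isInvariant (G := Gal(K/N)) (x + σ • x) fun g => ?_
        rcases eq_one_or h2 hσ g with h | h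
        · rw [h, one_smul]
        · rw [h, smul_add, smul_smul, sq2 h2, one_smul, add_comm]
      obtain ⟨c, hc⟩ : ∃ c : 𝓞 N, 2 * c - 1 ∈ P.asIdeal := by
        have h3 : (Ideal.Quotient.mk P.asIdeal 2) ≠ 0 := fun h => hodd (Ideal.Quotient.eq_zero_iff_mem.1 h)
        obtain ⟨c, hc⟩ := Ideal.Quotient.mk_surjective ((Ideal.Quotient.mk P.asIdeal 2)⁻¹)
        refine ⟨c, ?_⟩
        rw [← Ideal.Quotient.eq_zero_iff_mem, map_sub, map_mul, hc, map_one, mul_inv_cancel₀ h3, sub_self]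
      refine ⟨Ideal.Quotient.mk _ (c * t), ?_⟩
      have h4 : f (Ideal.Quotient.mk _ (c * t)) =
          Ideal.Quotient.mk w0.asIdeal (algebraMap (𝓞 N) (𝓞 K) (c * t)) := rfl
      rw [h4, Ideal.Quotient.eq, map_mul, ht]
      have h5 : algebraMap (𝓞 N) (𝓞 K) (2 * c - 1) ∈ w0.asIdeal := hc
      rw [map_sub, map_mul, map_ofNat, map_one] at h5
      have h6 : algebraMap (𝓞 N) (𝓞 K) c * (x + σ • x) - x =
          algebraMap (𝓞 N) (𝓞 K) c * (σ • x - x) + (2 * algebraMap (𝓞 N) (𝓞 K) c - 1) * x := by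
        ring
      rw [h6]
      exact Ideal.add_mem _ (Ideal.mul_mem_left _ _ (hin x)) (Ideal.mul_mem_right _ _ h5)
    rw [← card_nm, ← card_nm]
    exact (Nat.card_congr (Equiv.ofBijective f ⟨hinj, hsurj⟩)).symm

/-- the primitive character -/
noncomputable def XR (X : Gal(K/N) →* ℂˣ) (I : Ideal (𝓞 N)) : ℂ := by
  classical
  exact if ∃ w : HeightOneSpectrum (𝓞 K), Rm N w ∧ I ≤ (Pool.Agent.Y688.dn N w).asIdeal then 0 else Pool.Agent.R430.XX X I

/-- the trivial character with the same support -/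
noncomputable def YR (K : Type) [Field K] [NumberField K] [Algebra N K] [IsGalois N K]
    (I : Ideal (𝓞 N)) : ℂ := by
  classical
  exact if ∃ w : HeightOneSpectrum (𝓞 K), Rm N w ∧ I ≤ (Pool.Agent.Y688.dn N w).asIdeal then 0 else 1

variable {X : Gal(K/N) →* ℂˣ} {I J : Ideal (𝓞 N)}

lemma XR_pos (h : ∃ w : HeightOneSpectrum (𝓞 K), Rm N w ∧ I ≤ (Pool.Agent.Y688.dn N w).asIdeal) : XR X I = 0 := by
  unfold XR
  rw [if_pos h]

lemma XR_neg (h : ¬ ∃ w : HeightOneSpectrum (𝓞 K), Rm N w ∧ I ≤ (Pool.Agent.Y688.dn N w).asIdeal) :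
    XR X I = Pool.Agent.R430.XX X I := by
  unfold XR
  rw [if_neg h]

lemma YR_pos (h : ∃ w : HeightOneSpectrum (𝓞 K), Rm N w ∧ I ≤ (Pool.Agent.Y688.dn N w).asIdeal) : YR K I = 0 := by
  unfold YR
  rw [if_pos h]

lemma YR_neg (h : ¬ ∃ w : HeightOneSpectrum (𝓞 K), Rm N w ∧ I ≤ (Pool.Agent.Y688.dn N w).asIdeal) :
    YR K I = 1 := by
  unfold YR
  rw [if_neg h]

lemma XX_top' : Pool.Agent.R430.XX X (⊤ : Ideal (𝓞 N)) = 1 := by
  unfold Pool.Agent.R430.XX
  rw [← Ideal.one_eq_top, UniqueFactorizationMonoid.normalizedFactors_one, Multiset.map_zero,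
    Multiset.prod_zero]

lemma XX_ne0 (hX : ∀ σ, X σ ^ 2 = 1) : Pool.Agent.R430.XX X I ≠ 0 := by
  rcases XX_sq X hX I with h | h
  · rw [h]; exact one_ne_zero
  · rw [h]; exact neg_ne_zero.2 one_ne_zero

lemma XR_zero_iff (hX : ∀ σ, X σ ^ 2 = 1) : XR X I = 0 ↔ YR K I = 0 := by
  by_cases h : ∃ w : HeightOneSpectrum (𝓞 K), Rm N w ∧ I ≤ (Pool.Agent.Y688.dn N w).asIdeal
  · rw [XR_pos h, YR_pos h]
  · rw [XR_neg h, YR_neg h]
    exact ⟨fun h0 => absurd h0 (XX_ne0 hX), fun h0 => absurd h0 one_ne_zero⟩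

lemma top_not : ¬ ∃ w : HeightOneSpectrum (𝓞 K), Rm N w ∧ (⊤ : Ideal (𝓞 N)) ≤ (Pool.Agent.Y688.dn N w).asIdeal := by
  rintro ⟨w, -, h⟩
  exact (Pool.Agent.Y688.dn N w).isPrime.ne_top (top_le_iff.1 h)

lemma mul_iff : (∃ w : HeightOneSpectrum (𝓞 K), Rm N w ∧ I * J ≤ (Pool.Agent.Y688.dn N w).asIdeal) ↔
    (∃ w : HeightOneSpectrum (𝓞 K), Rm N w ∧ I ≤ (Pool.Agent.Y688.dn N w).asIdeal) ∨
    (∃ w : HeightOneSpectrum (𝓞 K), Rm N w ∧ J ≤ (Pool.Agent.Y688.dn N w).asIdeal) := by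
  constructor
  · rintro ⟨w, h1, h2⟩
    rcases (Ideal.IsPrime.mul_le (Pool.Agent.Y688.dn N w).isPrime).1 h2 with h | h
    · exact Or.inl ⟨w, h1, h⟩
    · exact Or.inr ⟨w, h1, h⟩
  · rintro (⟨w, h1, h2⟩ | ⟨w, h1, h2⟩)
    · exact ⟨w, h1, Ideal.mul_le_left.trans h2⟩
    · exact ⟨w, h1, Ideal.mul_le_right.trans h2⟩

lemma span_iff {n : ℕ} (hnr : ∀ w : HeightOneSpectrum (𝓞 K), Rm N w → (n : 𝓞 N) ∈ (Pool.Agent.Y688.dn N w).asIdeal)
    {α β : 𝓞 N} (h : (n : 𝓞 N) ∣ α - β)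
    (h1 : ∃ w : HeightOneSpectrum (𝓞 K), Rm N w ∧ Ideal.span {α} ≤ (Pool.Agent.Y688.dn N w).asIdeal) :
    ∃ w : HeightOneSpectrum (𝓞 K), Rm N w ∧ Ideal.span {β} ≤ (Pool.Agent.Y688.dn N w).asIdeal := by
  obtain ⟨w, hw, h1⟩ := h1
  refine ⟨w, hw, ?_⟩
  rw [Ideal.span_singleton_le_iff_mem] at h1 ⊢
  obtain ⟨c, hc⟩ := h
  have : β = α - n * c := by linear_combination -hc
  rw [this]
  exact Ideal.sub_mem _ h1 (Ideal.mul_mem_right _ _ (hnr w hw))

lemma YR_ig {n : ℕ} (hnr : ∀ w : HeightOneSpectrum (𝓞 K), Rm N w → (n : 𝓞 N) ∈ (Pool.Agent.Y688.dn N w).asIdeal) :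
    IG n (YR (N := N) K) where
  mul I J := by
    by_cases h1 : ∃ w : HeightOneSpectrum (𝓞 K), Rm N w ∧ I ≤ (Pool.Agent.Y688.dn N w).asIdeal
    · rw [YR_pos (mul_iff.2 (Or.inl h1)), YR_pos h1, zero_mul]
    · by_cases h2 : ∃ w : HeightOneSpectrum (𝓞 K), Rm N w ∧ J ≤ (Pool.Agent.Y688.dn N w).asIdeal
      · rw [YR_pos (mul_iff.2 (Or.inr h2)), YR_pos h2, mul_zero]
      · rw [YR_neg (fun h => (mul_iff.1 h).elim h1 h2), YR_neg h1, YR_neg h2, one_mul]
  top := YR_neg top_not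
  cong α β h := by
    by_cases h1 : ∃ w : HeightOneSpectrum (𝓞 K), Rm N w ∧ Ideal.span {α} ≤ (Pool.Agent.Y688.dn N w).asIdeal
    · rw [YR_pos h1, YR_pos (span_iff hnr h h1)]
    · rw [YR_neg h1, YR_neg (fun h2 => h1 (span_iff hnr (by rw [← neg_sub]; exact h.neg_right) h2))]
  val I := by
    by_cases h1 : ∃ w : HeightOneSpectrum (𝓞 K), Rm N w ∧ I ≤ (Pool.Agent.Y688.dn N w).asIdeal
    · exact Or.inl (YR_pos h1)
    · exact Or.inr ⟨0, by rw [YR_neg h1, one_pow]⟩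
  ne I h := by
    rw [YR_neg]
    · exact one_ne_zero
    · rintro ⟨w, hw, h1⟩
      rw [Ideal.isCoprime_iff_sup_eq] at h
      apply (Pool.Agent.Y688.dn N w).isPrime.ne_top
      rw [eq_top_iff, ← h]
      exact sup_le h1 ((Ideal.span_singleton_le_iff_mem _).2 (hnr w hw))

lemma XR_ig {a : N} (ha : a ^ 2 = -3) {r : ℕ} (hF : Module.finrank ℚ N = 2 * r)
    (h2v : ∀ v : HeightOneSpectrum (𝓞 N), (2 : 𝓞 N) ∈ v.asIdeal →
      v.valuation N 2 = WithZero.exp (-1 : ℤ)) (hX : ∀ σ, X σ ^ 2 = 1) {n : ℕ} (hno : Odd n)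
    (hnr : ∀ w : HeightOneSpectrum (𝓞 K), Rm N w → (n : 𝓞 N) ∈ (Pool.Agent.Y688.dn N w).asIdeal)
    (hex : ∃ w : HeightOneSpectrum (𝓞 K), Rm N w) : IG n (XR X) where
  mul I J := by
    by_cases h1 : ∃ w : HeightOneSpectrum (𝓞 K), Rm N w ∧ I ≤ (Pool.Agent.Y688.dn N w).asIdeal
    · rw [XR_pos (mul_iff.2 (Or.inl h1)), XR_pos h1, zero_mul]
    · by_cases h2 : ∃ w : HeightOneSpectrum (𝓞 K), Rm N w ∧ J ≤ (Pool.Agent.Y688.dn N w).asIdeal
      · rw [XR_pos (mul_iff.2 (Or.inr h2)), XR_pos h2, mul_zero]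
      · rw [XR_neg (fun h => (mul_iff.1 h).elim h1 h2), XR_neg h1, XR_neg h2]
        obtain ⟨w, hw⟩ := hex
        refine XX_mul X ?_ ?_
        · rintro rfl
          exact h1 ⟨w, hw, bot_le⟩
        · rintro rfl
          exact h2 ⟨w, hw, bot_le⟩
  top := by rw [XR_neg top_not, XX_top']
  cong α β h := by
    by_cases h1 : ∃ w : HeightOneSpectrum (𝓞 K), Rm N w ∧ Ideal.span {α} ≤ (Pool.Agent.Y688.dn N w).asIdeal
    · rw [XR_pos h1, XR_pos (span_iff hnr h h1)]
    · have h2 : ¬ ∃ w : HeightOneSpectrum (𝓞 K), Rm N w ∧ Ideal.span {β} ≤ (Pool.Agent.Y688.dn N w).asIdeal :=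
        fun h2 => h1 (span_iff hnr (by rw [← neg_sub]; exact h.neg_right) h2)
      rw [XR_neg h1, XR_neg h2]
      obtain ⟨w0, hw0⟩ := hex
      have hα0 : α ≠ 0 := by
        rintro rfl
        exact h1 ⟨w0, hw0, by rw [Ideal.span_singleton_le_iff_mem]; exact Ideal.zero_mem _⟩
      have hβ0 : β ≠ 0 := by
        rintro rfl
        exact h2 ⟨w0, hw0, by rw [Ideal.span_singleton_le_iff_mem]; exact Ideal.zero_mem _⟩
      -- an inverse of `α` modulo the ramified primes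
      let S : Set (HeightOneSpectrum (𝓞 N)) := {P | ∃ w : HeightOneSpectrum (𝓞 K), Rm N w ∧ Pool.Agent.Y688.dn N w = P}
      have hn0 : (n : 𝓞 N) ≠ 0 := by
        obtain ⟨k, hk⟩ := hno
        have : n ≠ 0 := by omega
        exact_mod_cast this
      have hSfin : S.Finite := by
        refine (ScN hn0).finite_toSet.subset ?_
        rintro P ⟨w, hw, rfl⟩
        exact (mem_ScN hn0).2 (hnr w hw)
      have hαS : ∀ P ∈ S, α ∉ P.asIdeal := by
        rintro P ⟨w, hw, rfl⟩ hm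
        exact h1 ⟨w, hw, (Ideal.span_singleton_le_iff_mem _).2 hm⟩
      -- the product of the ramified primes
      let Q : Ideal (𝓞 N) := ∏ P ∈ hSfin.toFinset, P.asIdeal
      have hQle : ∀ P ∈ S, Q ≤ P.asIdeal := fun P hP =>
        Ideal.prod_le_inf.trans (Finset.inf_le (hSfin.mem_toFinset.2 hP))
      have hcopQ : IsCoprime (Ideal.span {α}) Q := by
        refine IsCoprime.prod_right fun P hP => ?_
        have hPm : P.asIdeal.IsMaximal := P.isPrime.isMaximal P.ne_bot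
        rw [Ideal.isCoprime_iff_sup_eq]
        by_contra hne
        have h3 : P.asIdeal = Ideal.span {α} ⊔ P.asIdeal := hPm.eq_of_le hne le_sup_right
        apply hαS P (hSfin.mem_toFinset.1 hP)
        rw [h3]
        exact Ideal.mem_sup_left (Ideal.mem_span_singleton_self α)
      obtain ⟨x, hx, q, hq, hxq⟩ := (Ideal.isCoprime_iff_exists).1 hcopQ
      rw [Ideal.mem_span_singleton] at hx
      obtain ⟨c, rfl⟩ := hx
      have hm1 : ∀ w : HeightOneSpectrum (𝓞 K), Rm N w → α * c - 1 ∈ (Pool.Agent.Y688.dn N w).asIdeal := by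
        intro w hw
        have e : α * c - 1 = -q := by linear_combination hxq
        rw [e]
        exact Ideal.neg_mem_iff _ |>.2 (hQle _ ⟨w, hw, rfl⟩ hq)
      have hm2 : ∀ w : HeightOneSpectrum (𝓞 K), Rm N w → β * c - 1 ∈ (Pool.Agent.Y688.dn N w).asIdeal := by
        intro w hw
        obtain ⟨e, he⟩ := h
        have e' : β * c - 1 = (α * c - 1) - (n : 𝓞 N) * (e * c) := by linear_combination -c * he
        rw [e']
        exact Ideal.sub_mem _ (hm1 w hw) (Ideal.mul_mem_right _ _ (hnr w hw))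
      have hne1 : ∀ {x : 𝓞 N}, x - 1 ∈ (Pool.Agent.Y688.dn N w0).asIdeal → x ≠ 0 := by
        rintro x hx rfl
        apply (Pool.Agent.Y688.dn N w0).isPrime.ne_top
        rw [Ideal.eq_top_iff_one]
        have := Ideal.neg_mem_iff _ |>.2 hx
        simpa using this
      have hc0 : c ≠ 0 := by
        rintro rfl
        exact hne1 (hm1 w0 hw0) (mul_zero _)
      have hsp : ∀ {x : 𝓞 N}, x ≠ 0 → Ideal.span {x} ≠ 0 := by
        intro x hx
        rw [Ideal.zero_eq_bot, Ne, Ideal.span_singleton_eq_bot]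
        exact hx
      have k1 := XX_one ha hF h2v X hX hno hnr (hne1 (hm1 w0 hw0)) hm1
      have k2 := XX_one ha hF h2v X hX hno hnr (hne1 (hm2 w0 hw0)) hm2
      rw [← Ideal.span_singleton_mul_span_singleton, XX_mul X (hsp hα0) (hsp hc0)] at k1
      rw [← Ideal.span_singleton_mul_span_singleton, XX_mul X (hsp hβ0) (hsp hc0)] at k2
      exact mul_right_cancel₀ (XX_ne0 hX) (k1.trans k2.symm)
  val I := by
    by_cases h1 : ∃ w : HeightOneSpectrum (𝓞 K), Rm N w ∧ I ≤ (Pool.Agent.Y688.dn N w).asIdeal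
    · exact Or.inl (XR_pos h1)
    · refine Or.inr ⟨1, ?_⟩
      rw [XR_neg h1]
      rcases XX_sq X hX I with h | h
      · rw [h, one_pow]
      · rw [h]; norm_num
  ne I h := by
    rw [XR_neg]
    · exact XX_ne0 hX
    · rintro ⟨w, hw, h1⟩
      rw [Ideal.isCoprime_iff_sup_eq] at h
      apply (Pool.Agent.Y688.dn N w).isPrime.ne_top
      rw [eq_top_iff, ← h]
      exact sup_le h1 ((Ideal.span_singleton_le_iff_mem _).2 (hnr w hw))

end

end Pool.Agent.K7.H56.M
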