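import Pool.Agent.K7.H56.M.C

/-!
# The local factor at a prime modulo which two is a cube
-/

set_option autoImplicit false
set_option linter.unusedSectionVars false

open Complex NumberField IsDedekindDomain
open scoped PeriodPair nonZeroDivisors

namespace Pool.Agent.K7.H56.M

open Pool.Agent.R430
open Pool.Agent.Y696 Pool.Agent.W192.HK Pool.Agent.TH936.CM H667R3
open Pool.Agent.TH936.PU
open Pool.Agent.K7.H70.AS (VV_prod mero_eq2 gI_diff hX1)
open Pool.Agent.Y688 (NI HL euler mem_RR normSq_RR normSq_lin v_RR v_odd NP)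

/-- if `2` is a cube, the number of affine points is odd -/
theorem NP_odd {K : Type} [Field K] [Finite K] (h2 : (2 : K) ≠ 0) (h3 : (3 : K) ≠ 0) {ζ t : K}
    (hζ : ζ ^ 2 + ζ + 1 = 0) (ht : t ^ 3 = 2) :
    Odd (Nat.card {p : K × K // p.2 ^ 2 + p.2 = p.1 ^ 3}) := by
  classical
  have : Fintype K := Fintype.ofFinite K
  let S := {p : K × K // p.2 ^ 2 + p.2 = p.1 ^ 3}
  let σ : Equiv.Perm S :=
    { toFun := fun p => ⟨(p.1.1, -1 - p.1.2), by
        have := p.2
        show (-1 - p.1.2) ^ 2 + (-1 - p.1.2) = p.1.1 ^ 3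
        rw [← this]
        ring⟩
      invFun := fun p => ⟨(p.1.1, -1 - p.1.2), by
        have := p.2
        show (-1 - p.1.2) ^ 2 + (-1 - p.1.2) = p.1.1 ^ 3
        rw [← this]
        ring⟩
      left_inv := fun p => by
        apply Subtype.ext
        apply Prod.ext
        · rfl
        · simp
      right_inv := fun p => by
        apply Subtype.ext
        apply Prod.ext
        · rfl
        · simp }
  have hσ : σ ^ 2 ^ 1 = 1 := by
    ext1 p
    rw [pow_one, pow_two]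
    exact σ.left_inv p
  have h1 := Equiv.Perm.card_compl_support_modEq (p := 2) (n := 1) hσ
  have ht0 : t ≠ 0 := by
    rintro rfl
    apply h2
    rw [← ht]
    ring
  have hζ3 : ζ ^ 3 = 1 := by linear_combination (ζ - 1) * hζ
  have hζ0 : ζ ≠ 0 := by
    rintro rfl
    norm_num at hζ
  have hζ1 : ζ ≠ 1 := by
    rintro rfl
    apply h3
    linear_combination hζ
  have key : ∀ c : K, c ^ 3 = 1 → (-1 / 2 : K) ^ 2 + (-1 / 2) = (-(t / 2) * c) ^ 3 := by
    intro c hc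
    have h8 : (8 : K) ≠ 0 := by
      have := pow_ne_zero 3 h2
      norm_num at this
      exact this
    have : (-(t / 2) * c) ^ 3 = -(t ^ 3 * c ^ 3) / 8 := by
      field_simp
      ring
    rw [this, hc, ht]
    field_simp
    ring
  let s : Fin 3 → S := fun i => ⟨(-(t / 2) * ζ ^ (i : ℕ), -1 / 2), key _ (by
    rw [← pow_mul, mul_comm, pow_mul, hζ3, one_pow])⟩
  have hinj : Function.Injective s := by
    intro i j hij
    have h4 : -(t / 2) * ζ ^ (i : ℕ) = -(t / 2) * ζ ^ (j : ℕ) := congrArg (fun q : S => q.1.1) hij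
    have h5 : -(t / 2) ≠ 0 := neg_ne_zero.2 (div_ne_zero ht0 h2)
    have h6 := mul_left_cancel₀ h5 h4
    have h7 : ζ ^ 2 ≠ 1 := by
      intro h8
      apply hζ1
      linear_combination hζ3 - ζ * h8
    have h9 : ζ ^ 2 ≠ ζ := by
      intro h8
      have : ζ * (ζ - 1) = 0 := by linear_combination h8
      rcases mul_eq_zero.1 this with h | h
      · exact hζ0 h
      · exact hζ1 (sub_eq_zero.1 h)
    fin_cases i <;> fin_cases j
    · rfl
    · exfalso
      change ζ ^ 0 = ζ ^ 1 at h6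
      rw [pow_zero, pow_one] at h6
      exact hζ1 h6.symm
    · exfalso
      change ζ ^ 0 = ζ ^ 2 at h6
      rw [pow_zero] at h6
      exact h7 h6.symm
    · exfalso
      change ζ ^ 1 = ζ ^ 0 at h6
      rw [pow_zero, pow_one] at h6
      exact hζ1 h6
    · rfl
    · exfalso
      change ζ ^ 1 = ζ ^ 2 at h6
      rw [pow_one] at h6
      exact h9 h6.symm
    · exfalso
      change ζ ^ 2 = ζ ^ 0 at h6
      rw [pow_zero] at h6
      exact h7 h6
    · exfalso
      change ζ ^ 2 = ζ ^ 1 at h6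
      rw [pow_one] at h6
      exact h9 h6
    · rfl
  have h4 : σ.supportᶜ = Finset.univ.map ⟨s, hinj⟩ := by
    ext p
    simp only [Finset.mem_compl, Equiv.Perm.mem_support, not_not, Finset.mem_map, Finset.mem_univ,
      true_and, Function.Embedding.coeFn_mk]
    constructor
    · intro hp
      have e1 : -1 - p.1.2 = p.1.2 := congrArg (fun q : S => q.1.2) hp
      have e2 := p.2
      have e3 : p.1.2 = -1 / 2 := by
        field_simp
        linear_combination -e1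
      have e4 : (p.1.1 * 2 / -t) ^ 3 = 1 := by
        have : (p.1.1 * 2 / -t) ^ 3 = -(8 * p.1.1 ^ 3) / t ^ 3 := by
          field_simp
          ring
        rw [this, ht, ← e2, e3]
        field_simp
        ring
      set c := p.1.1 * 2 / -t with hc
      have e5 : p.1.1 = -(t / 2) * c := by
        rw [hc]
        field_simp
      have e6 : (c - 1) * ((c - ζ) * (c - ζ ^ 2)) = 0 := by
        have : (c - 1) * ((c - ζ) * (c - ζ ^ 2)) = c ^ 3 - ζ ^ 3 - (ζ ^ 2 + ζ + 1) * (c ^ 2 - c * ζ) := by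
          ring
        rw [this, hζ, e4, hζ3]
        ring
      rcases mul_eq_zero.1 e6 with h | h
      · exact ⟨0, Subtype.ext (Prod.ext (by rw [e5, sub_eq_zero.1 h]; simp [s]) e3.symm)⟩
      · rcases mul_eq_zero.1 h with h | h
        · exact ⟨1, Subtype.ext (Prod.ext (by rw [e5, sub_eq_zero.1 h]; simp [s]) e3.symm)⟩
        · exact ⟨2, Subtype.ext (Prod.ext (by rw [e5, sub_eq_zero.1 h]; simp [s]) e3.symm)⟩
    · rintro ⟨i, rfl⟩
      apply Subtype.ext
      apply Prod.ext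
      · rfl
      · show -1 - (-1 / 2 : K) = -1 / 2
        field_simp
        ring
  rw [h4, Finset.card_map, Finset.card_univ, Fintype.card_fin] at h1
  rw [Nat.card_eq_fintype_card, Nat.odd_iff]
  exact h1.symm

section
variable {N : Type} [Field N] [NumberField N]
variable {ι : Pool.Agent.Y688.RR →+* 𝓞 N}
variable {Γ : Type} [LinearOrderedCommGroupWithZero Γ] {v : Valuation ℂ Γ}

lemma v_even (hv : v 2 < 1) {a : Pool.Agent.Y688.RR} {m : ℤ} (hm : Even m)
    (ha : (a : ℂ) * (starRingEnd ℂ) (a : ℂ) = m) : v ((starRingEnd ℂ) (a : ℂ)) < 1 := by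
  obtain ⟨x, y, hxy⟩ := a.2
  have h1 : ((x ^ 2 - x * y + y ^ 2 : ℤ) : ℂ) = m := by
    rw [← ha, Complex.mul_conj, hxy]
    have := normSq_lin x y
    push_cast at this
    rw [this]
    push_cast
    ring
  have h2 : x ^ 2 - x * y + y ^ 2 = m := by exact_mod_cast h1
  have h3 : Even x ∧ Even y := by
    rcases Int.even_or_odd x with hx | hx <;> rcases Int.even_or_odd y with hy | hy
    · exact ⟨hx, hy⟩
    · exfalso
      have : Odd m := by
        rw [← h2]
        exact (((hx.pow_of_ne_zero two_ne_zero).sub (hx.mul_right _))).add_odd hy.pow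
      exact Int.not_even_iff_odd.2 this hm
    · exfalso
      have : Odd m := by
        rw [← h2]
        exact ((hx.pow.sub_even (hy.mul_left _))).add_even (hy.pow_of_ne_zero two_ne_zero)
      exact Int.not_even_iff_odd.2 this hm
    · exfalso
      have : Odd m := by
        rw [← h2]
        exact ((hx.pow.sub_odd (hx.mul hy))).add_odd hy.pow
      exact Int.not_even_iff_odd.2 this hm
  obtain ⟨⟨x', rfl⟩, ⟨y', rfl⟩⟩ := h3
  let b : Pool.Agent.Y688.RR := ⟨x' + y' * Pool.Agent.Y688.w, ⟨x', y', rfl⟩⟩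
  have h4 : (a : ℂ) = 2 * (b : ℂ) := by
    rw [hxy]
    show _ = 2 * ((x' : ℂ) + y' * Pool.Agent.Y688.w)
    push_cast
    ring
  have h5 : v ((starRingEnd ℂ) (b : ℂ)) ≤ 1 :=
    v_RR ⟨(starRingEnd ℂ) (b : ℂ), Pool.Agent.W287.HK.conj_mem Pool.Agent.Y688.qr _⟩
  have h6 : (starRingEnd ℂ) (a : ℂ) = 2 * (starRingEnd ℂ) (b : ℂ) := by
    rw [h4, map_mul]
    congr 1
    exact Complex.conj_ofNat 2
  rw [h6, map_mul]
  calc v 2 * v ((starRingEnd ℂ) (b : ℂ)) ≤ v 2 * 1 := by gcongr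
    _ = v 2 := mul_one _
    _ < 1 := hv

/-- the Euler factor in terms of the number of points -/
lemma gI_form {P : HeightOneSpectrum (𝓞 N)} (h3 : (3 : 𝓞 N) ∉ P.asIdeal) (h2 : (2 : 𝓞 N) ∉ P.asIdeal)
    (hv : v 2 < 1) : ∃ b : Pool.Agent.Y688.RR, (b : ℂ) * (starRingEnd ℂ) (b : ℂ) =
      ((Nat.card {p : (𝓞 N ⧸ P.asIdeal) × (𝓞 N ⧸ P.asIdeal) // p.2 ^ 2 + p.2 = p.1 ^ 3} + 1 : ℤ) : ℂ) ∧
      v (1 - gI ι (X0 1) 1 P.asIdeal) = v ((starRingEnd ℂ) (b : ℂ)) := by
  obtain ⟨h1, h4⟩ := PN_good (ι := ι) h3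
  have hmax : P.asIdeal.IsMaximal := P.isPrime.isMaximal P.ne_bot
  let _ : Field (𝓞 N ⧸ P.asIdeal) := Ideal.Quotient.field P.asIdeal
  have hfin : Finite (𝓞 N ⧸ P.asIdeal) := Ideal.finiteQuotientOfFreeOfNeBot P.asIdeal P.ne_bot
  let _ : Fintype (𝓞 N ⧸ P.asIdeal) := Fintype.ofFinite _
  have h20 : (2 : 𝓞 N ⧸ P.asIdeal) ≠ 0 := fun h => h2 (Ideal.Quotient.eq_zero_iff_mem.1 h)
  have hodd : Odd (nK P) := by
    have h4 : (Fintype.card (𝓞 N ⧸ P.asIdeal)) % 2 = 1 :=
      FiniteField.odd_card_of_char_ne_two (by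
        intro h5
        apply h20
        have := ringChar.Nat.cast_ringChar (R := 𝓞 N ⧸ P.asIdeal)
        rw [h5] at this
        exact_mod_cast this)
    have h5 : nK P = Fintype.card (𝓞 N ⧸ P.asIdeal) := by
      rw [← Nat.card_eq_fintype_card]
      exact (card_nm P).symm
    rw [h5, Nat.odd_iff]
    exact h4
  obtain ⟨a, ha⟩ := PN_mem (ι := ι) P.asIdeal
  rw [ha] at h1 h4
  obtain ⟨k1, k2⟩ := v_pair hv (a := a) (m := nK P) (by exact_mod_cast hodd) (by
    rw [h1]; push_cast; rfl)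
  have e0 : ((a - 1 : Pool.Agent.Y688.RR) : ℂ) = (a : ℂ) - 1 := rfl
  refine ⟨a - 1, ?_, ?_⟩
  · rw [e0, map_sub, map_one]
    push_cast
    linear_combination h1 - h4
  · have hca : (starRingEnd ℂ) (a : ℂ) ≠ 0 := by
      intro h0
      rw [h0, map_zero] at k2
      exact zero_ne_one k2
    have ha0 : (a : ℂ) ≠ 0 := by
      intro h0
      rw [h0, map_zero] at k1
      exact zero_ne_one k1
    have e : 1 - gI ι (X0 1) 1 P.asIdeal = (starRingEnd ℂ) ((a - 1 : Pool.Agent.Y688.RR) : ℂ) /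
        (starRingEnd ℂ) (a : ℂ) := by
      unfold gI
      have hN : ((Ideal.absNorm P.asIdeal : ℕ) : ℂ) = (a : ℂ) * (starRingEnd ℂ) (a : ℂ) := h1.symm
      rw [hX1, ha, hN, Complex.cpow_neg_one, e0, map_sub, map_one]
      field_simp
    rw [e, map_div₀, k2, div_one]

/-- the Euler factors away from two are integral -/
lemma gI_int (hv : v 2 < 1) {P : HeightOneSpectrum (𝓞 N)} (h2 : (2 : 𝓞 N) ∉ P.asIdeal) :
    v (1 - gI ι (X0 1) 1 P.asIdeal) ≤ 1 := by
  by_cases h3 : (3 : 𝓞 N) ∈ P.asIdeal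
  · have : gI ι (X0 1) 1 P.asIdeal = 0 := by
      unfold gI
      rw [PN_three h3, mul_zero, zero_mul]
    rw [this, sub_zero, map_one]
  · obtain ⟨b, -, hb⟩ := gI_form (ι := ι) h3 h2 hv
    rw [hb]
    exact v_RR ⟨(starRingEnd ℂ) (b : ℂ), Pool.Agent.W287.HK.conj_mem Pool.Agent.Y688.qr _⟩

/-- the Euler factor at a bad prime is not a unit -/
lemma bad_I (hv : v 2 < 1) {P : HeightOneSpectrum (𝓞 N)} (h2 : (2 : 𝓞 N) ∉ P.asIdeal)
    (h3 : (3 : 𝓞 N) ∉ P.asIdeal) {x : 𝓞 N} (hx : x ^ 3 - 2 ∈ P.asIdeal) :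
    v (1 - gI ι (X0 1) 1 P.asIdeal) < 1 := by
  have hmax : P.asIdeal.IsMaximal := P.isPrime.isMaximal P.ne_bot
  let _ : Field (𝓞 N ⧸ P.asIdeal) := Ideal.Quotient.field P.asIdeal
  have hfin : Finite (𝓞 N ⧸ P.asIdeal) := Ideal.finiteQuotientOfFreeOfNeBot P.asIdeal P.ne_bot
  have h20 : (2 : 𝓞 N ⧸ P.asIdeal) ≠ 0 := fun h => h2 (Ideal.Quotient.eq_zero_iff_mem.1 h)
  have h30 : (3 : 𝓞 N ⧸ P.asIdeal) ≠ 0 := fun h => h3 (Ideal.Quotient.eq_zero_iff_mem.1 h)
  have hw : (⟨Pool.Agent.Y688.w, ⟨0, 1, by simp⟩⟩ : Pool.Agent.Y688.RR) ^ 2 +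
      ⟨Pool.Agent.Y688.w, ⟨0, 1, by simp⟩⟩ + 1 = 0 := by
    apply Subtype.ext
    show Pool.Agent.Y688.w ^ 2 + Pool.Agent.Y688.w + 1 = 0
    linear_combination Pool.Agent.Y688.w_sq
  have hζ := congrArg (fun z => Ideal.Quotient.mk P.asIdeal (ι z)) hw
  simp only [map_add, map_pow, map_one, map_zero] at hζ
  have ht : (Ideal.Quotient.mk P.asIdeal x) ^ 3 = 2 := by
    rw [← Ideal.Quotient.eq_zero_iff_mem, map_sub, map_pow, map_ofNat, sub_eq_zero] at hx
    exact hx
  have ho := NP_odd h20 h30 hζ ht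
  obtain ⟨b, hb, hb2⟩ := gI_form (ι := ι) h3 h2 hv
  rw [hb2]
  refine v_even hv ?_ hb
  have := ho.add_one
  exact_mod_cast this

end

end Pool.Agent.K7.H56.M
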