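import Pool.Agent.K7.H56.M.D

/-!
# The value at one over a quadratic extension that is ramified at a bad prime
-/

set_option autoImplicit false
set_option linter.unusedSectionVars false

open Complex NumberField IsDedekindDomain
open scoped PeriodPair nonZeroDivisors

namespace Pool.Agent.K7.H56.M

open Pool.Agent.K7.H56
open Pool.Agent.R430
open Pool.Agent.Y696 Pool.Agent.W192.HK Pool.Agent.TH936.CM H667R3
open Pool.Agent.TH936.PU
open Pool.Agent.K7.H70.AS (VV_prod mero_eq2 gI_diff hX1)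
open Pool.Agent.Y688 (NI HL euler mem_RR normSq_RR normSq_lin v_RR v_odd NP)

section
variable {N : Type} [Field N] [NumberField N]
variable {n : ℕ} {X : Ideal (𝓞 N) → ℂ} {ι : Pool.Agent.Y688.RR →+* 𝓞 N} {f g : ℂ → ℂ}

/-- the Euler product -/
lemma VV_prody (hX : IG n X) (h : VV ι X f) {s : ℂ} (hs : 3 / 2 < s.re) :
    HasProd (fun v : HeightOneSpectrum (𝓞 N) => (1 - gI ι X s v.asIdeal)⁻¹) (f s) := by
  have h0 := h.sum s hs
  have h1 := euler (g := gI ι X s) (gI_muly hX s) (gI_topy hX s) h0.summable.norm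
  rw [h0.tsum_eq] at h1
  exact h1

/-- the ring of integers contains a square root of minus three -/
lemma exists_rt (ι : Pool.Agent.Y688.RR →+* 𝓞 N) : ∃ a : N, a ^ 2 = -3 := by
  let z : Pool.Agent.Y688.RR := ⟨1 + 2 * Pool.Agent.Y688.w, ⟨1, 2, by push_cast; ring⟩⟩
  have hz : z ^ 2 = -3 := by
    apply Subtype.ext
    show (1 + 2 * Pool.Agent.Y688.w) ^ 2 = (-3 : ℂ)
    linear_combination 4 * Pool.Agent.Y688.w_sq
  refine ⟨((ι z : 𝓞 N) : N), ?_⟩
  have h1 := congrArg (fun y => ((ι y : 𝓞 N) : N)) hz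
  simp only [map_pow, map_neg, map_ofNat] at h1
  simpa using h1

end

section
variable {N K : Type} [Field N] [NumberField N] [Field K] [NumberField K] [Algebra N K]
  [IsGalois N K]
variable {n : ℕ} {ι : Pool.Agent.Y688.RR →+* 𝓞 N} {X : Gal(K/N) →* ℂˣ}

/-- the ramified primes -/
def SR (N K : Type) [Field N] [NumberField N] [Field K] [NumberField K] [Algebra N K]
    [IsGalois N K] : Set (HeightOneSpectrum (𝓞 N)) :=
  {P | ∃ w : HeightOneSpectrum (𝓞 K), Rm N w ∧ Pool.Agent.Y688.dn N w = P}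

lemma SR_iff {P : HeightOneSpectrum (𝓞 N)} : (∃ w : HeightOneSpectrum (𝓞 K), Rm N w ∧
    P.asIdeal ≤ (Pool.Agent.Y688.dn N w).asIdeal) ↔ P ∈ SR N K := by
  constructor
  · rintro ⟨w, hw, h⟩
    exact ⟨w, hw, (HeightOneSpectrum.ext ((P.isPrime.isMaximal P.ne_bot).eq_of_le
      (Pool.Agent.Y688.dn N w).isPrime.ne_top h)).symm⟩
  · rintro ⟨w, hw, rfl⟩
    exact ⟨w, hw, le_rfl⟩

lemma SR_fin (hn0 : (n : 𝓞 N) ≠ 0) (hnr : ∀ w : HeightOneSpectrum (𝓞 K), Rm N w →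
    (n : 𝓞 N) ∈ (Pool.Agent.Y688.dn N w).asIdeal) : (SR N K).Finite := by
  refine (ScN hn0).finite_toSet.subset ?_
  rintro P ⟨w, hw, rfl⟩
  exact (mem_ScN hn0).2 (hnr w hw)

lemma gI_XR (s : ℂ) (P : HeightOneSpectrum (𝓞 N)) :
    gI ι (XR X) s P.asIdeal = XR X P.asIdeal * gI ι (X0 1) s P.asIdeal := by
  unfold gI
  rw [hX1, one_mul, mul_assoc]

lemma gI_YR (s : ℂ) (P : HeightOneSpectrum (𝓞 N)) :
    gI ι (YR K) s P.asIdeal = YR K P.asIdeal * gI ι (X0 1) s P.asIdeal := by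
  unfold gI
  rw [hX1, one_mul, mul_assoc]

/-- the factors over a prime -/
lemma fib (h2 : Module.finrank N K = 2) (hX : ∀ σ, σ ≠ 1 → X σ = -1)
    (hodd : ∀ w : HeightOneSpectrum (𝓞 K), Rm N w → (2 : 𝓞 N) ∉ (Pool.Agent.Y688.dn N w).asIdeal)
    (s : ℂ) (P : HeightOneSpectrum (𝓞 N)) :
    ∏ w : {w : HeightOneSpectrum (𝓞 K) // und w = P},
      (1 - gI ((algebraMap (𝓞 N) (𝓞 K)).comp ι) (X0 1) s w.1.asIdeal) =
    (1 - gI ι (X0 1) s P.asIdeal) * (1 - gI ι (XR X) s P.asIdeal) := by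
  classical
  by_cases hP : P ∈ SR N K
  · have hXR : XR X P.asIdeal = 0 := XR_pos (SR_iff.2 hP)
    obtain ⟨w0, hw0, rfl⟩ := hP
    obtain ⟨h3, h4⟩ := split_ram h2 hw0 (hodd w0 hw0)
    have hsub : Subsingleton {w : HeightOneSpectrum (𝓞 K) // und w = Pool.Agent.Y688.dn N w0} :=
      ⟨fun a b => Subtype.ext ((h3 a.1 a.2).trans (h3 b.1 b.2).symm)⟩
    rw [Fintype.prod_subsingleton _ (⟨w0, rfl⟩ : {w : HeightOneSpectrum (𝓞 K) //
      und w = Pool.Agent.Y688.dn N w0}), gI_XR, hXR, zero_mul, sub_zero, mul_one]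
    rw [gI_over (P := Pool.Agent.Y688.dn N w0) (w := w0) rfl (f := 1) (by rw [pow_one]; exact h4), pow_one]
  · obtain ⟨h3, h4⟩ := split_unr h2 hP
    have hXR : XR X P.asIdeal = ((X (frP K P.asIdeal) : ℂˣ) : ℂ) := by
      rw [XR_neg (fun h => hP (SR_iff.1 h)),
        XX_prime X (Ideal.prime_of_isPrime P.ne_bot P.isPrime)]
    have h5 : ∀ w : {w : HeightOneSpectrum (𝓞 K) // und w = P},
        (1 - gI ((algebraMap (𝓞 N) (𝓞 K)).comp ι) (X0 1) s w.1.asIdeal) =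
        1 - (gI ι (X0 1) s P.asIdeal) ^ orderOf (frP K P.asIdeal) := fun w => by
      rw [gI_over w.2 (h3 w.1 w.2)]
    rw [Finset.prod_congr rfl (fun w _ => h5 w), Finset.prod_const, Finset.card_univ, h4, gI_XR, hXR]
    have hdvd : orderOf (frP K P.asIdeal) ∣ 2 := by
      apply orderOf_dvd_of_pow_eq_one
      rw [pow_two]
      exact sq2 h2 _
    rcases (Nat.dvd_prime Nat.prime_two).1 hdvd with h | h
    · have h1 : frP K P.asIdeal = 1 := orderOf_eq_one_iff.1 h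
      rw [h, h1, map_one, Units.val_one]
      norm_num
      ring
    · have h1 : frP K P.asIdeal ≠ 1 := by
        intro h0
        rw [h0, orderOf_one] at h
        exact absurd h (by norm_num)
      rw [h, hX _ h1]
      norm_num
      ring

/-- the factorization of the `L`-function -/
theorem L_prod (h2 : Module.finrank N K = 2) (hX : ∀ σ, σ ≠ 1 → X σ = -1)
    (hodd : ∀ w : HeightOneSpectrum (𝓞 K), Rm N w → (2 : 𝓞 N) ∉ (Pool.Agent.Y688.dn N w).asIdeal)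
    {F f g : ℂ → ℂ} (hF : VV ((algebraMap (𝓞 N) (𝓞 K)).comp ι) (X0 1) F) (hf : VV ι (X0 1) f)
    (hig : IG n (XR X)) (hg : VV ι (XR X) g) : F 1 = f 1 * g 1 := by
  classical
  refine mero_eq2 (g := fun s => f s * g s) hF.mero (fun z hz => (hf.mero z hz).mul (hg.mero z hz))
    ?_ hF.an (hf.an.mul hg.an)
  intro s hs
  have k1 := VV_prod (X0_ic 1) hF hs
  have k2 := (VV_prod (X0_ic 1) hf hs).mul (VV_prody hig hg hs)
  have k3 : HasProd (fun x : (Σ P : HeightOneSpectrum (𝓞 N),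
      {w : HeightOneSpectrum (𝓞 K) // und w = P}) =>
      (1 - gI ((algebraMap (𝓞 N) (𝓞 K)).comp ι) (X0 1) s x.2.1.asIdeal)⁻¹) (F s) :=
    ((Equiv.sigmaFiberEquiv (und (F := N) (K := K))).hasProd_iff (f := fun w : HeightOneSpectrum (𝓞 K) =>
      (1 - gI ((algebraMap (𝓞 N) (𝓞 K)).comp ι) (X0 1) s w.asIdeal)⁻¹)).2 k1
  have k4 : HasProd (fun P : HeightOneSpectrum (𝓞 N) =>
      ∏ w : {w : HeightOneSpectrum (𝓞 K) // und w = P},
      (1 - gI ((algebraMap (𝓞 N) (𝓞 K)).comp ι) (X0 1) s w.1.asIdeal)⁻¹) (F s) :=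
    k3.sigma fun P => hasProd_fintype _
  refine k4.unique (k2.congr_fun fun P => ?_)
  rw [Finset.prod_inv_distrib, fib h2 hX hodd s P, mul_inv]

/-- the value of the function without the factors at the ramified primes -/
theorem YR_val (hnr : ∀ w : HeightOneSpectrum (𝓞 K), Rm N w →
      (n : 𝓞 N) ∈ (Pool.Agent.Y688.dn N w).asIdeal) (hfin : (SR N K).Finite)
    {f g : ℂ → ℂ} (hf : VV ι (YR K) f) (hg : VV ι (X0 1) g) :
    f 1 = (∏ P ∈ hfin.toFinset, (1 - gI ι (X0 1) 1 P.asIdeal)) * g 1 := by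
  have hd : Differentiable ℂ (fun s => ∏ P ∈ hfin.toFinset, (1 - gI ι (X0 1) s P.asIdeal)) :=
    Differentiable.fun_finsetProd fun v _ => (differentiable_const _).sub (gI_diff _ v)
  refine mero_eq2 (g := fun s => (∏ P ∈ hfin.toFinset, (1 - gI ι (X0 1) s P.asIdeal)) * g s) hf.mero
    (fun z hz => ((hd.analyticAt z).meromorphicAt).mul (hg.mero z hz)) ?_ hf.an
    ((hd.analyticAt 1).mul hg.an)
  intro s hs
  classical
  have h1 := VV_prody (YR_ig hnr) hf hs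
  have h2 := VV_prod (X0_ic 1) hg hs
  have h5 : HasProd (fun P : HeightOneSpectrum (𝓞 N) => if P ∈ hfin.toFinset then
      (1 - gI ι (X0 1) s P.asIdeal) else 1) (∏ P ∈ hfin.toFinset, (1 - gI ι (X0 1) s P.asIdeal)) := by
    have h6 := hasProd_prod_of_ne_finset_one (L := .unconditional _) (s := hfin.toFinset)
      (f := fun P : HeightOneSpectrum (𝓞 N) => if P ∈ hfin.toFinset then
        (1 - gI ι (X0 1) s P.asIdeal) else 1) (fun P hP => if_neg hP)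
    rw [Finset.prod_congr rfl (fun P hP => if_pos hP)] at h6
    exact h6
  refine h1.unique ((h5.mul h2).congr_fun fun v => ?_)
  rw [gI_YR]
  by_cases hv : v ∈ hfin.toFinset
  · rw [if_pos hv, YR_pos (SR_iff.2 (hfin.mem_toFinset.1 hv)), zero_mul, sub_zero, inv_one,
      mul_inv_cancel₀ (gI_lt (X0_ic 1) hs v)]
  · rw [if_neg hv, one_mul, YR_neg (fun h => hv (hfin.mem_toFinset.2 (SR_iff.1 h))), one_mul]

/-- **the value at one over a quadratic extension that is ramified at a bad prime** -/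
theorem quad_lt {d : ℕ} (hd : Module.finrank ℚ N = 2 * d) (h3d : ¬ 3 ∣ d) (hU : Unr2 N)
    (h2 : Module.finrank N K = 2) (hn : Odd n)
    (hnr : ∀ w : HeightOneSpectrum (𝓞 K), Rm N w → (n : 𝓞 N) ∈ (Pool.Agent.Y688.dn N w).asIdeal)
    {w0 : HeightOneSpectrum (𝓞 K)} (hw0 : Rm N w0)
    (h3 : (3 : 𝓞 N) ∉ (Pool.Agent.Y688.dn N w0).asIdeal) {x : 𝓞 N}
    (hx : x ^ 3 - 2 ∈ (Pool.Agent.Y688.dn N w0).asIdeal) :
    ∀ F : ℂ → ℂ, VV ((algebraMap (𝓞 N) (𝓞 K)).comp ι) (X0 1) F →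
      ∀ (L : PeriodPair) (Ω : ℂ), HL L Ω → ∀ (Γ : Type) [LinearOrderedCommGroupWithZero Γ]
        (v : Valuation ℂ Γ), v 2 < 1 → v (F 1) < v Ω ^ (2 * d) := by
  classical
  have hn0 : (n : 𝓞 N) ≠ 0 := by
    obtain ⟨k, hk⟩ := hn
    have : n ≠ 0 := by omega
    exact_mod_cast this
  have h2n : ∀ P : HeightOneSpectrum (𝓞 N), (n : 𝓞 N) ∈ P.asIdeal → (2 : 𝓞 N) ∉ P.asIdeal := by
    intro P hP h2P
    obtain ⟨k, hk⟩ := hn
    apply P.isPrime.ne_top
    rw [Ideal.eq_top_iff_one]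
    have : (1 : 𝓞 N) = (n : 𝓞 N) - 2 * (k : 𝓞 N) := by
      rw [hk]
      push_cast
      ring
    rw [this]
    exact Ideal.sub_mem _ hP (Ideal.mul_mem_right _ _ h2P)
  have hodd : ∀ w : HeightOneSpectrum (𝓞 K), Rm N w →
      (2 : 𝓞 N) ∉ (Pool.Agent.Y688.dn N w).asIdeal := fun w hw => h2n _ (hnr w hw)
  obtain ⟨σ0, hσ0, -⟩ := id hw0
  obtain ⟨X, hX0⟩ := exists_char' (comm2 h2) hσ0
  have hXsq : ∀ σ, X σ ^ 2 = 1 := fun σ => by rw [← map_pow, pow_two, sq2 h2, map_one]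
  have hX : ∀ σ, σ ≠ 1 → X σ = -1 := by
    intro σ hσ
    rcases eq_one_or h2 hσ0 σ with h | h
    · exact absurd h hσ
    · rw [h]
      have h5 := hXsq σ0
      have h6 : ((X σ0 : ℂˣ) : ℂ) ^ 2 = 1 := by rw [← Units.val_pow_eq_pow_val, h5, Units.val_one]
      have h7 : (((X σ0 : ℂˣ) : ℂ) - 1) * (((X σ0 : ℂˣ) : ℂ) + 1) = 0 := by linear_combination h6
      rcases mul_eq_zero.1 h7 with h8 | h8
      · exact absurd (Units.ext (by rw [Units.val_one]; exact sub_eq_zero.1 h8)) hX0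
      · exact Units.ext (by rw [Units.val_neg, Units.val_one]; exact eq_neg_of_add_eq_zero_left h8)
  obtain ⟨a, ha⟩ := exists_rt ι
  have hig : IG n (XR X) := XR_ig ha hd (fun v hv => hU v (by exact_mod_cast hv)) hXsq hn hnr ⟨w0, hw0⟩
  have hig' : IG n (YR (N := N) K) := YR_ig hnr
  obtain ⟨g, g0, hg, hg0, hval⟩ := core_gen N ι d hd h3d hU n (XR X) (YR K) hig hig'
    (fun I => XR_zero_iff hXsq) hn
  obtain ⟨f, f0, hf, hf0, hvalf⟩ := core_gen N ι d hd h3d hU 1 (X0 1) (X0 1) (IC.ig (X0_ic 1))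
    (IC.ig (X0_ic 1)) (fun _ => Iff.rfl) odd_one
  intro F hF L Ω hL Γ _ v hv
  have hfin := SR_fin hn0 hnr
  have e1 := L_prod h2 hX hodd hF hf hig hg
  have e2 := YR_val hnr hfin hg0 hf
  obtain ⟨v1, v2⟩ := hval L Ω hL Γ v hv
  obtain ⟨v3, -⟩ := hvalf L Ω hL Γ v hv
  have hΩ : v Ω ^ d ≠ 0 := pow_ne_zero _ ((Valuation.ne_zero_iff _).2 hL.ne)
  have v4 : v (∏ P ∈ hfin.toFinset, (1 - gI ι (X0 1) 1 P.asIdeal)) < 1 := by
    have hmem : Pool.Agent.Y688.dn N w0 ∈ hfin.toFinset := hfin.mem_toFinset.2 ⟨w0, hw0, rfl⟩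
    rw [← Finset.mul_prod_erase _ _ hmem, map_mul, map_prod]
    have b1 : v (1 - gI ι (X0 1) 1 (Pool.Agent.Y688.dn N w0).asIdeal) < 1 :=
      bad_I hv (hodd w0 hw0) h3 hx
    have b2 : ∏ P ∈ hfin.toFinset.erase (Pool.Agent.Y688.dn N w0),
        v (1 - gI ι (X0 1) 1 P.asIdeal) ≤ 1 := by
      refine Finset.prod_le_one' fun P hP => ?_
      obtain ⟨w, hw, rfl⟩ := hfin.mem_toFinset.1 (Finset.mem_of_mem_erase hP)
      exact gI_int hv (hodd w hw)
    calc _ ≤ v (1 - gI ι (X0 1) 1 (Pool.Agent.Y688.dn N w0).asIdeal) * 1 := by gcongr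
      _ = _ := mul_one _
      _ < 1 := b1
  have v5 : v (g0 1) < v Ω ^ d := by
    rw [e2, map_mul]
    calc _ ≤ v (∏ P ∈ hfin.toFinset, (1 - gI ι (X0 1) 1 P.asIdeal)) * v Ω ^ d := by gcongr
      _ < 1 * v Ω ^ d := mul_lt_mul_of_pos_right v4 (zero_lt_iff.2 hΩ)
      _ = _ := one_mul _
  have v6 : v (g 1) < v Ω ^ d := by
    have e : g 1 = (g 1 - g0 1) + g0 1 := by ring
    rw [e]
    exact (v.map_add _ _).trans_lt (max_lt v2 v5)
  rw [e1, map_mul, two_mul, pow_add]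
  calc v (f 1) * v (g 1) ≤ v Ω ^ d * v (g 1) := by gcongr
    _ < v Ω ^ d * v Ω ^ d := mul_lt_mul_of_pos_left v6 (zero_lt_iff.2 hΩ)

end

end Pool.Agent.K7.H56.M
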