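import Pool.Agent.K7.H56.M.E
import Pool.Agent.K7.H70.AS.T

/-!
# The value at one over an extension of 2-power degree that is ramified at a bad prime
-/

set_option autoImplicit false
set_option linter.unusedSectionVars false

open NumberField IsDedekindDomain WithZero

namespace Pool.Agent.K7.H56.M

open Pool.Agent.K7.H56
open Pool.Agent.R430
open Pool.Agent.Y696
open Pool.Agent.K7.H70.AS (goodRam_of_unr unr_of_goodRam ram_mul gal2' exists_iota0 fr_M three_pow)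
open Pool.Agent.Y688 (HL)

section
variable {F K : Type} [Field F] [NumberField F] [Field K] [NumberField K] [Algebra F K]

/-- ramification above two, from the top -/
lemma ram_two {P : HeightOneSpectrum (𝓞 F)} {w : HeightOneSpectrum (𝓞 K)}
    (hw : w.asIdeal.LiesOver P.asIdeal) (h2P : (2 : 𝓞 F) ∈ P.asIdeal)
    (h2 : w.valuation K 2 = exp (-1 : ℤ)) :
    P.valuation F 2 = exp (-1 : ℤ) ∧ P.asIdeal.ramificationIdx' w.asIdeal = 1 := by
  have h1 := HeightOneSpectrum.valuation_liesOver (K := F) K P w (2 : F)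
  rw [map_ofNat (algebraMap F K), h2] at h1
  have h3 : P.valuation F 2 < 1 := by
    have h4 := (HeightOneSpectrum.valuation_lt_one_iff_mem (K := F) P (2 : 𝓞 F)).2 h2P
    have e : (algebraMap (𝓞 F) F) 2 = 2 := map_ofNat _ 2
    exact e ▸ h4
  have h0 : P.valuation F 2 ≠ 0 := (Valuation.ne_zero_iff _).2 two_ne_zero
  obtain ⟨a, ha⟩ : ∃ a : ℤ, P.valuation F 2 = exp a := ⟨log (P.valuation F 2), (exp_log h0).symm⟩
  rw [ha, ← exp_zero, exp_lt_exp] at h3
  rw [ha, ← exp_nsmul, nsmul_eq_mul] at h1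
  have h5 := exp_injective h1
  set e := P.asIdeal.ramificationIdx' w.asIdeal with he
  have h6 : (e : ℤ) * (-a) = 1 := by linarith
  have h7 : (e : ℤ) = 1 := by
    have h8 : (e : ℤ) ∣ 1 := Dvd.intro _ h6
    exact Int.eq_one_of_dvd_one (by positivity) h8
  have h9 : a = -1 := by
    rw [h7] at h6
    linarith
  exact ⟨by rw [ha, h9], by exact_mod_cast h7⟩

lemma unr2_down (h2 : Unr2 K) : Unr2 F := by
  intro P hP
  obtain ⟨w, hw⟩ := exists_above (K := K) P
  refine (ram_two hw (by exact_mod_cast hP) (h2 w ?_)).1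
  have h1 : algebraMap (𝓞 F) (𝓞 K) ((2 : ℕ) : 𝓞 F) ∈ w.asIdeal := by
    have := hw.over
    rw [this] at hP
    exact hP
  rwa [map_natCast] at h1

variable [IsGalois F K]

lemma inert_two (h2 : Unr2 K) {w : HeightOneSpectrum (𝓞 K)} (h2w : (2 : 𝓞 K) ∈ w.asIdeal)
    {σ : Gal(K/F)} (hσ : ∀ x : 𝓞 K, σ • x - x ∈ w.asIdeal) : σ = 1 := by
  let v₀ : HeightOneSpectrum (𝓞 F) := ⟨w.asIdeal.under (𝓞 F), inferInstance, by
    intro h
    exact w.ne_bot (Ideal.eq_bot_of_comap_eq_bot h)⟩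
  have hlo : w.asIdeal.LiesOver v₀.asIdeal := ⟨rfl⟩
  have h2v : (2 : 𝓞 F) ∈ v₀.asIdeal := by
    change algebraMap (𝓞 F) (𝓞 K) 2 ∈ w.asIdeal
    rwa [map_ofNat]
  have he := (ram_two hlo h2v (h2 w (by exact_mod_cast h2w))).2
  rw [Ideal.ramificationIdx'_eq_ramificationIdx _ _ v₀.ne_bot] at he
  exact unr_g w (Algebra.isUnramifiedAt_iff_of_isDedekindDomain.2 he) hσ

/-- an odd number that is divisible by the ramified primes -/
lemma exists_odd (h2 : Unr2 K) :
    ∃ n : ℕ, Odd n ∧ ∀ w : HeightOneSpectrum (𝓞 K), Rm F w →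
      (n : 𝓞 F) ∈ (Pool.Agent.Y688.dn F w).asIdeal := by
  classical
  have hx : ∀ σ : Gal(K/F), ∃ x : 𝓞 K, σ ≠ 1 → σ • x ≠ x := by
    intro σ
    by_contra hcon
    push Not at hcon
    exact (hcon 0).1 (gal_eq_one fun x => (hcon x).2)
  choose X hX using hx
  let _ : Fintype Gal(K/F) := Fintype.ofFinite _
  set s : Finset (Gal(K/F)) := Finset.univ.filter (· ≠ 1) with hs
  set D : 𝓞 K := ∏ σ ∈ s, (σ • X σ - X σ) with hDd
  have hD : D ≠ 0 := Finset.prod_ne_zero_iff.2 fun σ hσ =>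
    sub_ne_zero.2 (hX σ (Finset.mem_filter.1 hσ).2)
  set M := Ideal.absNorm (Ideal.span {D}) with hM
  have hM0 : M ≠ 0 := by
    rw [hM, Ne, Ideal.absNorm_eq_zero_iff, Ideal.span_singleton_eq_bot]
    exact hD
  refine ⟨∏ p ∈ M.primeFactors.filter (fun p => p ≠ 2), p, ?_, ?_⟩
  · refine Finset.prod_induction _ (fun n : ℕ => Odd n) (fun a b ha hb => ha.mul hb) odd_one ?_
    intro p hp
    obtain ⟨h1, h3⟩ := Finset.mem_filter.1 hp
    exact (Nat.prime_of_mem_primeFactors h1).odd_of_ne_two h3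
  · rintro w ⟨σ, hne, hσ⟩
    have hDw : D ∈ w.asIdeal := by
      rw [hDd, ← Finset.mul_prod_erase s _ (a := σ) (Finset.mem_filter.2 ⟨Finset.mem_univ _, hne⟩)]
      exact w.asIdeal.mul_mem_right _ (hσ _)
    have hmax : w.asIdeal.IsMaximal := w.isMaximal
    obtain ⟨p, m, hm, hpw, hp, hnorm⟩ := Ideal.exists_prime_and_absNorm_eq_pow w.asIdeal
    have hpM : p ∣ M := by
      refine (dvd_pow_self p hm.ne').trans ?_
      rw [← hnorm]
      exact Ideal.absNorm_dvd_absNorm_of_le ((Ideal.span_singleton_le_iff_mem _).2 hDw)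
    have hp2 : p ≠ 2 := by
      rintro rfl
      exact hne (inert_two h2 (by exact_mod_cast hpw) hσ)
    rw [← Finset.mul_prod_erase _ _ (a := p) (Finset.mem_filter.2
      ⟨Nat.mem_primeFactors.2 ⟨hp, hpM, hM0⟩, hp2⟩), Nat.cast_mul]
    refine Ideal.mul_mem_right _ _ ?_
    change algebraMap (𝓞 F) (𝓞 K) (p : 𝓞 F) ∈ w.asIdeal
    rwa [map_natCast]

end

section
variable {F K : Type} [Field F] [NumberField F] [Field K] [NumberField K] [Algebra F K]
  [IsGalois F K]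

/-- the inertia groups are groups -/
lemma inert_pow {w : HeightOneSpectrum (𝓞 K)} {σ : Gal(K/F)}
    (hσ : ∀ x : 𝓞 K, σ • x - x ∈ w.asIdeal) (k : ℕ) : ∀ x : 𝓞 K, σ ^ k • x - x ∈ w.asIdeal := by
  induction k with
  | zero =>
    intro x
    rw [pow_zero, one_smul, sub_self]
    exact Ideal.zero_mem _
  | succ k ih =>
    intro x
    have : σ ^ (k + 1) • x - x = (σ ^ k • (σ • x) - σ • x) + (σ • x - x) := by
      rw [pow_succ, mul_smul]
      ring
    rw [this]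
    exact Ideal.add_mem _ (ih _) (hσ x)

/-- an involution in the inertia group -/
lemma exists_inv {r : ℕ} (hr : Module.finrank F K = 2 ^ r) {w : HeightOneSpectrum (𝓞 K)}
    {σ : Gal(K/F)} (hσ : σ ≠ 1) (hin : ∀ x : 𝓞 K, σ • x - x ∈ w.asIdeal) :
    ∃ τ : Gal(K/F), orderOf τ = 2 ∧ ∀ x : 𝓞 K, τ • x - x ∈ w.asIdeal := by
  have hcard : Nat.card Gal(K/F) = 2 ^ r := by rw [IsGalois.card_aut_eq_finrank, hr]
  have h1 : orderOf σ ∣ 2 ^ r := by
    rw [← hcard]
    exact orderOf_dvd_natCard σ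
  obtain ⟨k, -, hk⟩ := (Nat.dvd_prime_pow Nat.prime_two).1 h1
  cases k with
  | zero =>
    rw [pow_zero, orderOf_eq_one_iff] at hk
    exact absurd hk hσ
  | succ k =>
    refine ⟨σ ^ 2 ^ k, ?_, inert_pow hin _⟩
    rw [orderOf_pow' σ (pow_ne_zero k two_ne_zero), hk]
    have : Nat.gcd (2 ^ (k + 1)) (2 ^ k) = 2 ^ k := Nat.gcd_eq_right (pow_dvd_pow 2 (Nat.le_succ k))
    rw [this, pow_succ, Nat.mul_div_cancel_left _ (by positivity)]

/-- the quadratic top layer -/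
theorem exists_top {r : ℕ} (hr : Module.finrank F K = 2 ^ r) {w : HeightOneSpectrum (𝓞 K)}
    {σ : Gal(K/F)} (hσ : σ ≠ 1) (hin : ∀ x : 𝓞 K, σ • x - x ∈ w.asIdeal) :
    ∃ (N : IntermediateField F K) (m : ℕ), r = m + 1 ∧ Module.finrank F N = 2 ^ m ∧
      Module.finrank N K = 2 ∧ Rm N w := by
  obtain ⟨τ, hτ, hin'⟩ := exists_inv hr hσ hin
  set N : IntermediateField F K := IntermediateField.fixedField (Subgroup.zpowers τ) with hN
  have h2 : Module.finrank N K = 2 := by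
    rw [hN, IntermediateField.finrank_fixedField_eq_card, Nat.card_zpowers, hτ]
  have h3 := Module.finrank_mul_finrank F N K
  rw [h2, hr] at h3
  cases r with
  | zero =>
    exfalso
    rw [pow_zero] at h3
    omega
  | succ m =>
    refine ⟨N, m, rfl, ?_, h2, ?_⟩
    · rw [pow_succ] at h3
      exact Nat.eq_of_mul_eq_mul_right two_pos h3
    · have hmem : τ ∈ N.fixingSubgroup := by
        rw [hN, IntermediateField.fixingSubgroup_fixedField]
        exact Subgroup.mem_zpowers τ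
      refine ⟨N.fixingSubgroupEquiv ⟨τ, hmem⟩, ?_, fun x => hin' x⟩
      intro h
      have h4 : (⟨τ, hmem⟩ : N.fixingSubgroup) = 1 := by
        apply N.fixingSubgroupEquiv.injective
        rw [h, map_one]
      have h5 : τ = 1 := congrArg Subtype.val h4
      rw [h5, orderOf_one] at hτ
      exact absurd hτ (by norm_num)

end

section
variable {F0 K : Type} [Field F0] [NumberField F0] [IsCyclotomicExtension {3} ℚ F0]
  [Field K] [NumberField K] [Algebra F0 K] [IsGalois F0 K]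

/-- **the value at one, if a bad prime is ramified** -/
theorem bad_val {r : ℕ} (hr : Module.finrank F0 K = 2 ^ r) (hU : Unr2 K)
    (ι : Pool.Agent.Y688.RR →+* 𝓞 F0) {w : HeightOneSpectrum (𝓞 K)} {σ : Gal(K/F0)} (hσ : σ ≠ 1)
    (hin : ∀ x : 𝓞 K, σ • x - x ∈ w.asIdeal) (h3 : (3 : 𝓞 K) ∉ w.asIdeal) {x : 𝓞 F0}
    (hx : algebraMap (𝓞 F0) (𝓞 K) (x ^ 3 - 2) ∈ w.asIdeal) :
    ∀ f : ℂ → ℂ, VV ((algebraMap (𝓞 F0) (𝓞 K)).comp ι) (X0 1) f →
      ∀ (L : PeriodPair) (Ω : ℂ), HL L Ω → ∀ (Γ : Type) [LinearOrderedCommGroupWithZero Γ]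
        (v : Valuation ℂ Γ), v 2 < 1 → v (f 1) < v Ω ^ 2 ^ r := by
  obtain ⟨N, m, rfl, h1, h2, hR⟩ := exists_top hr hσ hin
  have hUN : Unr2 N := unr2_down hU
  obtain ⟨n, hn, hnr⟩ := exists_odd (F := N) hU
  have hcomp : (algebraMap (𝓞 N) (𝓞 K)).comp ((algebraMap (𝓞 F0) (𝓞 N)).comp ι) =
      (algebraMap (𝓞 F0) (𝓞 K)).comp ι := by
    rw [← RingHom.comp_assoc]
    congr 1
  intro f hf L Ω hL Γ _ v hv
  rw [← hcomp] at hf
  have h4 := quad_lt (N := N) (K := K) (ι := (algebraMap (𝓞 F0) (𝓞 N)).comp ι) (d := 2 ^ m)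
    (fr_M h1) (three_pow m) hUN h2 hn hnr hR ?_ (x := algebraMap (𝓞 F0) (𝓞 N) x) ?_ f hf L Ω hL Γ v hv
  · rw [pow_succ, mul_comm]
    exact h4
  · intro h
    apply h3
    change algebraMap (𝓞 N) (𝓞 K) 3 ∈ w.asIdeal at h
    rwa [map_ofNat] at h
  · change algebraMap (𝓞 N) (𝓞 K) _ ∈ w.asIdeal
    rw [← map_pow, ← map_ofNat (algebraMap (𝓞 F0) (𝓞 N)) 2, ← map_sub]
    exact hx

end

end Pool.Agent.K7.H56.M
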