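import Pool.Agent.K7.H56.M.G

/-!
# The L-function if its value is not a unit
-/

set_option autoImplicit false
set_option linter.unusedSectionVars false

namespace Pool.Agent.K7.H56.M

open NumberField IsDedekindDomain WithZero WeierstrassCurve
open Pool.Agent.K7.H56 (VV core3_true)
open Pool.Agent.K7.H70.AS
open Pool.Agent.R430
open Pool.Agent.W192.HK
open Pool.Agent.Y696
open Pool.Agent.TH841.SH.D
open Pool.Agent.TH936.CM H667R3 Pool.Agent.TH936.PU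
open Pool.Agent.W189.NF (aV eV redMap Ov card_res finite_res)
open Pool.Agent.Y688 (HL)
open scoped Classical

/-- the `L`-function is continued and its value is not a unit -/
def BadL (k : Type) [Field k] [NumberField k] : Prop :=
  ∃ Lf : ℂ → ℂ, MeromorphicOn Lf Set.univ ∧
    (∀ s : ℂ, 3 / 2 < s.re → LSeriesSummable ((fun n : ℤ => (n : ℂ)) ∘ (E27 k).LFunction) s ∧
      Lf s = (E27 k).LSeries s) ∧
    AnalyticAt ℂ Lf 1 ∧
    ∀ (Λ : PeriodPair) (ω : ℝ), IsPeriods Λ ω →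
      ∀ (Γ : Type) [LinearOrderedCommGroupWithZero Γ] (v : Valuation ℂ Γ), v 2 < 1 →
        v (Lf 1 * (Real.sqrt |(discr k : ℝ)| : ℝ) / period k Λ ω) < 1

section
variable {K : Type} [Field K] [NumberField K]

/-- **the field with the cube roots of unity** -/
theorem badL_big (hGK : G4 K) (ι : Pool.Agent.Y688.RR →+* 𝓞 K) {d : ℕ}
    (hd : Module.finrank ℚ K = 2 * d) (h3d : ¬ 3 ∣ d)
    (hB : ∀ f : ℂ → ℂ, VV ι (X0 1) f → ∀ (L : PeriodPair) (Ω : ℂ), HL L Ω →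
      ∀ (Γ : Type) [LinearOrderedCommGroupWithZero Γ] (v : Valuation ℂ Γ), v 2 < 1 →
        v (f 1) < v Ω ^ d) : BadL K := by
  obtain ⟨f, -, hf, -, -⟩ := core3_true K ι d hd h3d hGK.two 1 (X0 1) (X0_ic 1) odd_one
  have hval := hB f hf
  refine ⟨Lam f, Lam_mero hf, fun s hs => ⟨(LSeries_hasProd' (E0 K) (hasseN (iE ι) hGK.three) hs).1,
    (Lam_eq hf hGK.three hs).symm⟩, Lam_an hf, fun Λ ω hΛ Γ _ v hv => ?_⟩
  obtain ⟨Ω, hC⟩ := cur_of hΛ.g₂ hΛ.g₃
  have hL := HL_of_Cur hC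
  have h6 := hval Λ Ω hL Γ v hv
  have h7 := hval Λ Ω hL Γ (vc v) (vc_two hv)
  rw [vc_apply, vc_apply] at h7
  have h8 : v ((Real.sqrt |((3 : ℤ) : ℝ)| : ℝ) : ℂ) = 1 := v_sqrtD hv (by norm_num)
  have h9 : v ((Real.sqrt |(discr K : ℝ)| : ℝ) : ℂ) = 1 := v_sqrtD hv hGK.disc_odd
  have hr1 : InfinitePlace.nrRealPlaces K = 0 := by
    obtain ⟨ω', hω'⟩ := hGK.om
    exact InfinitePlace.IsPrimitiveRoot.nrRealPlaces_eq_zero_of_two_lt (by norm_num) (prim_three hω')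
  have hr2 : InfinitePlace.nrComplexPlaces K = d := by
    have h10 := InfinitePlace.card_add_two_mul_card_eq_rank K
    rw [hr1, hd] at h10
    omega
  have hΩ : v Ω ≠ 0 := (Valuation.ne_zero_iff _).2 hL.ne
  have hΩ' : v ((starRingEnd ℂ) Ω) ≠ 0 := (Valuation.ne_zero_iff _).2 (by
    rw [Ne, map_eq_zero]; exact hL.ne)
  unfold period
  rw [hr1, hr2, pow_zero, one_mul, area hC.lat, map_div₀, map_mul, map_pow, map_mul, h8, h9,
    one_mul, mul_one, Lam_one, map_mul, map_mul, mul_pow]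
  have hp1 : 0 < v Ω ^ d := zero_lt_iff.2 (pow_ne_zero _ hΩ)
  have hp2 : 0 < v ((starRingEnd ℂ) Ω) ^ d := zero_lt_iff.2 (pow_ne_zero _ hΩ')
  rw [div_lt_one₀ (mul_pos hp1 hp2)]
  calc v (f 1) * v ((starRingEnd ℂ) (f 1)) ≤ v Ω ^ d * v ((starRingEnd ℂ) (f 1)) := by gcongr
    _ < v Ω ^ d * v ((starRingEnd ℂ) Ω) ^ d := mul_lt_mul_of_pos_left h7 hp1

variable {K₀ : Type} [Field K₀] [NumberField K₀] [Algebra K₀ K]

/-- **the field without cube roots of unity** -/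
theorem badL_small (hGK : G4 K) (ι : Pool.Agent.Y688.RR →+* 𝓞 K) {d : ℕ}
    (hd : Module.finrank ℚ K = 2 * d) (h3d : ¬ 3 ∣ d)
    (hB : ∀ f : ℂ → ℂ, VV ι (X0 1) f → ∀ (L : PeriodPair) (Ω : ℂ), HL L Ω →
      ∀ (Γ : Type) [LinearOrderedCommGroupWithZero Γ] (v : Valuation ℂ Γ), v 2 < 1 →
        v (f 1) < v Ω ^ d)
    (h2K : Module.finrank K₀ K = 2) (hns : ∀ x : K₀, x ^ 2 ≠ -3) : BadL K₀ := by
  obtain ⟨f, -, hf, -, -⟩ := core3_true K ι d hd h3d hGK.two 1 (X0 1) (X0_ic 1) odd_one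
  have hval := hB f hf
  obtain ⟨τ, Q⟩ := mkQdN (K₀ := K₀) h2K hGK.val3_small hns (iE ι)
  refine ⟨fun s => (starRingEnd ℂ) (f ((starRingEnd ℂ) s)), mero_conj hf.mero, fun s hs => ?_,
    an_conj (by rw [map_one]; exact hf.an), fun Λ ω hΛ Γ _ v hv => ?_⟩
  · have k1 := LSeries_hasProd' (E0 K₀) Q.hasseN hs
    refine ⟨k1.1, ?_⟩
    have k2 : HasProd (fun v : HeightOneSpectrum (𝓞 K₀) => XX v s) ((E0 K₀).LSeries s) := k1.2
    have k3 : HasProd (fun v : HeightOneSpectrum (𝓞 K) => yw (iE ι) v s)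
        ((starRingEnd ℂ) (f ((starRingEnd ℂ) s))) := by
      have h3 := VV_conj (N := K) (ι := ι) (f := f) (X := X0 1) (X0_ic 1)
        (by rw [X0_conj (N := K) (n := 1)]; exact hf) hs
      refine h3.congr_fun fun v => ?_
      rw [hX1]
      unfold Pool.Agent.Y696.HH yw
      rw [one_mul]
    have k4 := (Equiv.sigmaFiberEquiv (und0 K₀ (K := K))).hasProd_iff.2 k3
    have k5 := k4.sigma (g := fun v => XX v s) fun v => Q.fibN v s
    show (starRingEnd ℂ) (f ((starRingEnd ℂ) s)) = (E0 K₀).LSeries s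
    exact (k2.unique k5).symm
  · obtain ⟨Ω, hC⟩ := cur_of hΛ.g₂ hΛ.g₃
    have hL := HL_of_Cur hC
    have k1 := hval Λ Ω hL Γ (vc v) (vc_two hv)
    rw [vc_apply, vc_apply] at k1
    rw [v_period_conj hC hΛ.real hv] at k1
    have k2 : v ((Real.sqrt |((3 : ℤ) : ℝ)| : ℝ) : ℂ) = 1 := v_sqrtD hv (by norm_num)
    have k3 : v ((Real.sqrt |(discr K₀ : ℝ)| : ℝ) : ℂ) = 1 :=
      v_sqrtD hv (fun hd => hGK.disc_odd (hd.trans (discr_dvd_discr K₀ K)))
    have k4 : v ((2 * |((starRingEnd ℂ) Λ.ω₁ * Λ.ω₂).im| : ℝ) : ℂ) = v (ω : ℂ) ^ 2 := by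
      rw [area hC.lat, map_mul, map_mul, k2, one_mul, v_period hC hΛ.real hv,
        v_period_conj hC hΛ.real hv]
      exact (pow_two _).symm
    have k5 : InfinitePlace.nrRealPlaces K₀ + 2 * InfinitePlace.nrComplexPlaces K₀ = d := by
      rw [InfinitePlace.card_add_two_mul_card_eq_rank K₀]
      have e2 := Module.finrank_mul_finrank ℚ K₀ K
      rw [h2K, hd] at e2
      omega
    have hω0 : v (ω : ℂ) ≠ 0 := (Valuation.ne_zero_iff _).2 (by exact_mod_cast hΛ.real.1.1.ne')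
    unfold period
    simp only [map_one]
    rw [map_div₀, map_mul, map_mul, map_pow, map_pow, k4, k3, mul_one, ← pow_mul,
      ← pow_add, k5, div_lt_one₀ (zero_lt_iff.2 (pow_ne_zero _ hω0))]
    exact k1

end

end Pool.Agent.K7.H56.M
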