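import Pool.Agent.K7.H56.M.H
import Pool.Agent.R425.Ram
import Pool.Agent.R425.Alg

/-!
# Adjoining a square root of minus three
-/

set_option autoImplicit false
set_option linter.unusedSectionVars false

namespace Pool.Agent.K7.H56.M

open NumberField IsDedekindDomain WithZero
open Pool.Agent.K7.H56
open Pool.Agent.R430
open Pool.Agent.Y696

section
variable {F K : Type} [Field F] [NumberField F] [Field K] [NumberField K] [Algebra F K]

/-- ramification at a rational prime, from the top -/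
lemma ram_nat {P : HeightOneSpectrum (𝓞 F)} {w : HeightOneSpectrum (𝓞 K)}
    (hw : w.asIdeal.LiesOver P.asIdeal) {p : ℕ} (hp0 : p ≠ 0) (hpP : (p : 𝓞 F) ∈ P.asIdeal)
    (h : w.valuation K (p : K) = exp (-1 : ℤ)) :
    P.valuation F (p : F) = exp (-1 : ℤ) ∧ P.asIdeal.ramificationIdx' w.asIdeal = 1 := by
  have h1 := HeightOneSpectrum.valuation_liesOver (K := F) K P w (p : F)
  rw [map_natCast (algebraMap F K), h] at h1
  have h3 : P.valuation F (p : F) < 1 := by
    have h4 := (HeightOneSpectrum.valuation_lt_one_iff_mem (K := F) P (p : 𝓞 F)).2 hpP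
    have e : (algebraMap (𝓞 F) F) (p : 𝓞 F) = (p : F) := map_natCast _ p
    exact e ▸ h4
  have h0 : P.valuation F (p : F) ≠ 0 := (Valuation.ne_zero_iff _).2 (by exact_mod_cast hp0)
  obtain ⟨a, ha⟩ : ∃ a : ℤ, P.valuation F (p : F) = exp a :=
    ⟨log (P.valuation F (p : F)), (exp_log h0).symm⟩
  rw [ha, ← exp_zero, exp_lt_exp] at h3
  rw [ha, ← exp_nsmul, nsmul_eq_mul] at h1
  have h5 := exp_injective h1
  set e := P.asIdeal.ramificationIdx' w.asIdeal with he
  have h6 : (e : ℤ) * (-a) = 1 := by linarith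
  have h7 : (e : ℤ) = 1 := by
    have h8 : (e : ℤ) ∣ 1 := Dvd.intro _ h6
    exact Int.eq_one_of_dvd_one (by positivity) h8
  have h9 : a = -1 := by
    rw [h7] at h6
    linarith
  exact ⟨by rw [ha, h9], by exact_mod_cast h7⟩

end

section
variable {F0 : Type} [Field F0] [NumberField F0] [IsCyclotomicExtension {3} ℚ F0]

/-- the primes not above three are unramified in the third cyclotomic field -/
lemma F0_unr {l : ℕ} (hl : l.Prime) (hl3 : l ≠ 3) (P : HeightOneSpectrum (𝓞 F0))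
    (hP : (l : 𝓞 F0) ∈ P.asIdeal) : P.valuation F0 (l : F0) = exp (-1 : ℤ) := by
  have hgal : IsGalois ℚ F0 := IsCyclotomicExtension.isGalois {3} ℚ F0
  obtain ⟨ζ, hζ⟩ := IsCyclotomicExtension.exists_isPrimitiveRoot ℚ F0
    (Set.mem_singleton 3) (by norm_num)
  have h1 : ζ ^ 2 + ζ + 1 = 0 := by
    have h3 : ζ ^ 3 = 1 := hζ.pow_eq_one
    have h4 : ζ ≠ 1 := hζ.ne_one (by norm_num)
    have h5 : (ζ - 1) * (ζ ^ 2 + ζ + 1) = 0 := by linear_combination h3
    exact (mul_eq_zero.1 h5).resolve_left (sub_ne_zero.2 h4)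
  obtain ⟨z, rfl⟩ : ∃ z : 𝓞 F0, (z : F0) = ζ := ⟨⟨ζ, hζ.isIntegral (by norm_num)⟩, rfl⟩
  have hz : z ^ 2 + z + 1 = 0 := by
    apply RingOfIntegers.ext
    push_cast
    exact h1
  have hin : ∀ σ : Gal(F0/ℚ), (∀ x : 𝓞 F0, σ • x - x ∈ P.asIdeal) → σ = 1 := by
    intro σ hσ
    by_contra hne
    have h2 : σ (z : F0) ≠ z := by
      intro h2
      apply hne
      have htop : Algebra.adjoin ℚ ({(z : F0)} : Set F0) = ⊤ :=
        IsCyclotomicExtension.adjoin_primitive_root_eq_top hζ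
      have h3 : (σ : F0 →ₐ[ℚ] F0) = AlgHom.id ℚ F0 := by
        refine AlgHom.ext_of_adjoin_eq_top htop ?_
        intro x hx
        rw [Set.mem_singleton_iff.1 hx]
        exact h2
      exact AlgEquiv.ext fun x => DFunLike.congr_fun h3 x
    have h3 : σ (z : F0) = -1 - z := by
      have h4 : (σ (z : F0)) ^ 2 + σ (z : F0) + 1 = 0 := by
        rw [← map_pow, ← map_add, ← map_one σ, ← map_add, h1, map_zero]
      have h5 : (σ (z : F0) - z) * (σ (z : F0) + z + 1) = 0 := by linear_combination h4 - h1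
      rcases mul_eq_zero.1 h5 with h6 | h6
      · exact absurd (sub_eq_zero.1 h6) h2
      · linear_combination h6
    have h6 : σ • z = -1 - z := by
      apply RingOfIntegers.ext
      push_cast
      exact h3
    have h7 := hσ z
    rw [h6] at h7
    have h8 : (3 : 𝓞 F0) ∈ P.asIdeal := by
      have : (3 : 𝓞 F0) = (-1 - z - z) * (1 + 2 * z) := by linear_combination 4 * hz
      rw [this]
      exact Ideal.mul_mem_right _ _ h7
    have h9 : Nat.Coprime l 3 := (Nat.coprime_primes hl Nat.prime_three).2 hl3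
    obtain ⟨u, v, huv⟩ := (Nat.isCoprime_iff_coprime.2 h9)
    apply P.isPrime.ne_top
    rw [Ideal.eq_top_iff_one]
    have h10 : (1 : 𝓞 F0) = (u : 𝓞 F0) * (l : 𝓞 F0) + (v : 𝓞 F0) * 3 := by
      have := congrArg (fun t : ℤ => (t : 𝓞 F0)) huv
      push_cast at this
      exact this.symm
    rw [h10]
    exact Ideal.add_mem _ (Ideal.mul_mem_left _ _ hP) (Ideal.mul_mem_left _ _ h8)
  let v₀ : HeightOneSpectrum (𝓞 ℚ) := ⟨P.asIdeal.under (𝓞 ℚ), inferInstance, by
    intro h
    exact P.ne_bot (Ideal.eq_bot_of_comap_eq_bot h)⟩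
  have hlo : P.asIdeal.LiesOver v₀.asIdeal := ⟨rfl⟩
  have he := ram_one hlo hin
  have h3 := val_of_unr hlo he (l : ℚ)
  rw [map_natCast (algebraMap ℚ F0)] at h3
  rw [h3]
  refine Pool.Agent.R425.unr_of_disc ℚ hl ?_ v₀ ?_
  · rw [Rat.numberField_discr]
    intro h
    have := Int.natCast_dvd_natCast.1 (by exact_mod_cast h : ((l : ℕ) : ℤ) ∣ ((1 : ℕ) : ℤ))
    exact hl.one_lt.ne' (Nat.dvd_one.1 this)
  · change algebraMap (𝓞 ℚ) (𝓞 F0) ((l : ℕ) : 𝓞 ℚ) ∈ P.asIdeal
    rwa [map_natCast]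

end

section
variable {K M : Type} [Field K] [NumberField K] [Field M] [NumberField M] [Algebra K M]
  [IsGalois K M]

/-- the nontrivial automorphism -/
lemma act_z (h2 : Module.finrank K M = 2) (hns : ∀ x : K, x ^ 2 ≠ -3) {z : 𝓞 M}
    (hz : z ^ 2 + z + 1 = 0) {σ : Gal(M/K)} (hσ : σ ≠ 1) : σ • z = -1 - z := by
  have hz' : (z : M) ^ 2 + z + 1 = 0 := by
    have := congrArg (fun t : 𝓞 M => (t : M)) hz
    push_cast at this
    exact this
  have hθ : (2 * (z : M) + 1) ^ 2 = -3 := by linear_combination 4 * hz'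
  obtain ⟨τ, hτ⟩ := exists_tau h2 hns hθ
  have hτ1 : τ ≠ 1 := by
    rintro rfl
    have h3 : (2 * (z : M) + 1) = -(2 * (z : M) + 1) := hτ
    have h4 : (2 * (z : M) + 1) = 0 := by linear_combination (1 / 2 : M) * h3
    rw [h4] at hθ
    norm_num at hθ
  have h5 : σ = τ := (eq_one_or h2 hτ1 σ).resolve_left hσ
  rw [h5]
  apply RingOfIntegers.ext
  push_cast
  change τ (z : M) = -1 - (z : M)
  rw [map_add, map_mul, map_ofNat, map_one] at hτ
  linear_combination (1 / 2 : M) * hτ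

/-- two remains unramified -/
lemma up_two (h2 : Module.finrank K M = 2) (hns : ∀ x : K, x ^ 2 ≠ -3) {z : 𝓞 M}
    (hz : z ^ 2 + z + 1 = 0) (hK : Unr2 K) : Unr2 M := by
  intro w hw
  have hw2 : (2 : 𝓞 M) ∈ w.asIdeal := by exact_mod_cast hw
  let v₀ : HeightOneSpectrum (𝓞 K) := ⟨w.asIdeal.under (𝓞 K), inferInstance, by
    intro h
    exact w.ne_bot (Ideal.eq_bot_of_comap_eq_bot h)⟩
  have hlo : w.asIdeal.LiesOver v₀.asIdeal := ⟨rfl⟩
  have he := ram_one hlo fun σ hσ => by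
    by_contra hne
    have h3 := hσ z
    rw [act_z h2 hns hz hne] at h3
    have h4 : (3 : 𝓞 M) ∈ w.asIdeal := by
      have : (3 : 𝓞 M) = (-1 - z - z) * (1 + 2 * z) := by linear_combination 4 * hz
      rw [this]
      exact Ideal.mul_mem_right _ _ h3
    apply w.isPrime.ne_top
    rw [Ideal.eq_top_iff_one]
    have : (1 : 𝓞 M) = 3 - 2 := by norm_num
    rw [this]
    exact Ideal.sub_mem _ h4 hw2
  have h5 := val_of_unr hlo he 2
  rw [map_ofNat (algebraMap K M)] at h5
  rw [h5]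
  refine hK v₀ ?_
  change algebraMap (𝓞 K) (𝓞 M) ((2 : ℕ) : 𝓞 K) ∈ w.asIdeal
  rwa [map_natCast]

/-- the ramification above three -/
lemma up_three (h2 : Module.finrank K M = 2) (hns : ∀ x : K, x ^ 2 ≠ -3) {z : 𝓞 M}
    (hz : z ^ 2 + z + 1 = 0) (hK : ∀ v : HeightOneSpectrum (𝓞 K), (3 : 𝓞 K) ∈ v.asIdeal →
      v.valuation K 3 = exp (-1 : ℤ) ∨ v.valuation K 3 = exp (-2 : ℤ))
    (w : HeightOneSpectrum (𝓞 M)) (hw : (3 : 𝓞 M) ∈ w.asIdeal) :
    w.valuation M 3 = exp (-2 : ℤ) := by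
  let v₀ : HeightOneSpectrum (𝓞 K) := ⟨w.asIdeal.under (𝓞 K), inferInstance, by
    intro h
    exact w.ne_bot (Ideal.eq_bot_of_comap_eq_bot h)⟩
  have hlo : w.asIdeal.LiesOver v₀.asIdeal := ⟨rfl⟩
  have h3v : (3 : 𝓞 K) ∈ v₀.asIdeal := by
    change algebraMap (𝓞 K) (𝓞 M) 3 ∈ w.asIdeal
    rwa [map_ofNat]
  have h4 := HeightOneSpectrum.valuation_liesOver M v₀ w (3 : K)
  rw [map_ofNat (algebraMap K M)] at h4
  set e := v₀.asIdeal.ramificationIdx' w.asIdeal with he
  set θ : 𝓞 M := 2 * z + 1 with hθd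
  have hθ : θ ^ 2 = -3 := by rw [hθd]; linear_combination 4 * hz
  have hθM : (θ : M) ^ 2 = -3 := by
    have := congrArg (fun t : 𝓞 M => (t : M)) hθ
    push_cast at this
    exact this
  have hθ0 : w.valuation M (θ : M) ≠ 0 := (Valuation.ne_zero_iff _).2 (by
    intro h0
    rw [h0] at hθM
    norm_num at hθM)
  obtain ⟨k, hk⟩ : ∃ k : ℤ, w.valuation M (θ : M) = exp k :=
    ⟨log (w.valuation M (θ : M)), (exp_log hθ0).symm⟩
  have h5 : w.valuation M 3 = exp (2 * k) := by
    have : (3 : M) = -(θ : M) ^ 2 := by rw [hθM, neg_neg]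
    rw [this, Valuation.map_neg, map_pow, hk, ← exp_nsmul, nsmul_eq_mul]
    norm_num
  have hle : e ≤ 2 := by
    have hmax : v₀.asIdeal.IsMaximal := v₀.isPrime.isMaximal v₀.ne_bot
    have hnz : NoZeroSMulDivisors (𝓞 K) (𝓞 M) := ⟨fun {r x} h => by
      rw [Algebra.smul_def] at h
      rcases mul_eq_zero.1 h with h | h
      · left
        exact (map_eq_zero_iff _ (FaithfulSMul.algebraMap_injective (𝓞 K) (𝓞 M))).1 h
      · exact Or.inr h⟩
    have := Ideal.ramificationIdx_le_finrank (𝓞 M) K M (p := v₀.asIdeal) w.asIdeal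
    rw [h2] at this
    exact this
  rw [h5] at h4 ⊢
  rcases hK v₀ h3v with h6 | h6
  · rw [h6, ← exp_nsmul, nsmul_eq_mul] at h4
    have h7 := exp_injective h4
    have h8 : (e : ℤ) ≤ 2 := by exact_mod_cast hle
    have h9 : (0 : ℤ) ≤ e := by positivity
    have h10 : w.valuation M 3 < 1 := by
      have h11 := (HeightOneSpectrum.valuation_lt_one_iff_mem (K := M) w (3 : 𝓞 M)).2 hw
      have e' : (algebraMap (𝓞 M) M) 3 = 3 := map_ofNat _ 3
      exact e' ▸ h11
    rw [h5, ← exp_zero, exp_lt_exp] at h10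
    congr 1
    omega
  · -- the extension is unramified
    suffices h1 : e = 1 by
      rw [h6, h1, pow_one] at h4
      exact h4.symm
    by_contra hne
    have hram : ∃ σ : Gal(M/K), σ ≠ 1 ∧ ∀ x : 𝓞 M, σ • x - x ∈ w.asIdeal := by
      by_contra hcon
      push Not at hcon
      apply hne
      refine ram_one hlo fun σ hσ => ?_
      by_contra hσ1
      obtain ⟨x, hx⟩ := hcon σ hσ1
      exact hx (hσ x)
    obtain ⟨σ, hσ1, hσ⟩ := hram
    have hσθ : σ • θ = -θ := by
      rw [hθd, smul_add, smul_one, two_mul, smul_add, act_z h2 hns hz hσ1]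
      ring
    have h0e : e ≠ 0 := by
      intro h0
      rw [h0, pow_zero] at h4
      have h10 : w.valuation M 3 < 1 := by
        have h11 := (HeightOneSpectrum.valuation_lt_one_iff_mem (K := M) w (3 : 𝓞 M)).2 hw
        have e' : (algebraMap (𝓞 M) M) 3 = 3 := map_ofNat _ 3
        exact e' ▸ h11
      rw [h5, ← h4] at h10
      exact lt_irrefl _ h10
    have he2 : e = 2 := by omega
    obtain ⟨b, hb⟩ := v₀.intValuation_exists_uniformizer
    have hbM : w.valuation M (algebraMap K M (b : K)) = exp (-2 : ℤ) := by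
      rw [← HeightOneSpectrum.valuation_liesOver M v₀ w (b : K), ← he, he2]
      have : v₀.valuation K (b : K) = exp (-1 : ℤ) := by
        rw [← hb]
        exact HeightOneSpectrum.valuation_of_algebraMap v₀ b
      rw [this, ← exp_nsmul, nsmul_eq_mul]
      rfl
    have hk2 : k = -2 := by
      rw [h6, he2, ← exp_nsmul, nsmul_eq_mul] at h4
      have h7 := exp_injective h4
      push_cast at h7
      omega
    have hbi : w.intValuation (algebraMap (𝓞 K) (𝓞 M) b) = exp (-2 : ℤ) := by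
      rw [← hbM]
      exact (HeightOneSpectrum.valuation_of_algebraMap (K := M) w _).symm
    have hθi : w.intValuation θ = exp (-2 : ℤ) := by
      rw [hk2] at hk
      rw [← hk]
      exact (HeightOneSpectrum.valuation_of_algebraMap (K := M) w _).symm
    have m1 : algebraMap (𝓞 K) (𝓞 M) b ∈ w.asIdeal ^ 2 :=
      (w.intValuation_le_pow_iff_mem _ 2).1 (by rw [hbi]; rfl)
    have m2 : algebraMap (𝓞 K) (𝓞 M) b ∉ w.asIdeal ^ (2 + 1) := by
      intro h
      have := (w.intValuation_le_pow_iff_mem _ (2 + 1)).2 h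
      rw [hbi, exp_le_exp] at this
      norm_num at this
    have m3 : θ ∈ w.asIdeal ^ 2 :=
      (w.intValuation_le_pow_iff_mem _ 2).1 (by rw [hθi]; rfl)
    have m4 : θ ∉ w.asIdeal ^ (2 + 1) := by
      intro h
      have := (w.intValuation_le_pow_iff_mem _ (2 + 1)).2 h
      rw [hθi, exp_le_exp] at this
      norm_num at this
    have hwp := w.isPrime
    obtain ⟨d, ε, hε, hd⟩ := Ideal.exists_mul_add_mem_pow_succ w.ne_bot _ θ m1 m2 m3
    apply m4
    have hσw : ∀ x ∈ w.asIdeal ^ (2 + 1), σ • x ∈ w.asIdeal ^ (2 + 1) := by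
      have h8 : w.asIdeal ≤ w.asIdeal.comap (MulSemiringAction.toRingHom Gal(M/K) (𝓞 M) σ) := by
        intro x hx
        change σ • x ∈ w.asIdeal
        have : σ • x = (σ • x - x) + x := by ring
        rw [this]
        exact Ideal.add_mem _ (hσ x) hx
      intro x hx
      have h9 : w.asIdeal ^ (2 + 1) ≤
          (w.asIdeal ^ (2 + 1)).comap (MulSemiringAction.toRingHom Gal(M/K) (𝓞 M) σ) :=
        (Ideal.pow_right_mono h8 (2 + 1)).trans (Ideal.le_comap_pow _ (2 + 1))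
      exact h9 hx
    have hσb : σ • (algebraMap (𝓞 K) (𝓞 M) b) = algebraMap (𝓞 K) (𝓞 M) b := by
      apply RingOfIntegers.ext
      have h8 : ((σ • (algebraMap (𝓞 K) (𝓞 M) b) : 𝓞 M) : M) = σ (algebraMap K M (b : K)) := rfl
      rw [h8, AlgEquiv.commutes]
      rfl
    have h2θ : 2 * θ ∈ w.asIdeal ^ (2 + 1) := by
      have h8 : 2 * θ = (algebraMap (𝓞 K) (𝓞 M) b) * (-(σ • d - d)) + (ε - σ • ε) := by
        have h9 : -θ = (algebraMap (𝓞 K) (𝓞 M) b) * (σ • d) + σ • ε := by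
          rw [← hσθ, ← hd, smul_add, smul_mul', hσb]
        linear_combination h9 * (-1) + hd * (-1) * (-1) * (-1)
      rw [h8]
      refine Ideal.add_mem _ ?_ (Ideal.sub_mem _ hε (hσw ε hε))
      rw [pow_succ]
      exact Ideal.mul_mem_mul m1 (Ideal.neg_mem_iff _ |>.2 (hσ d))
    have h3w : (3 : 𝓞 M) ∈ w.asIdeal ^ (2 + 1) := by
      have h8 : (3 : 𝓞 M) = -(θ * θ) := by linear_combination hθ
      rw [h8]
      refine Ideal.neg_mem_iff _ |>.2 ?_
      have h9 : θ * θ ∈ w.asIdeal ^ 2 * w.asIdeal ^ 2 := Ideal.mul_mem_mul m3 m3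
      rw [← pow_add] at h9
      exact Ideal.pow_le_pow_right (by norm_num) h9
    have h8 : θ = 2 * (2 * θ) - 3 * θ := by ring
    rw [h8]
    exact Ideal.sub_mem _ (Ideal.mul_mem_left _ _ h2θ) (Ideal.mul_mem_right _ _ h3w)

end

end Pool.Agent.K7.H56.M
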