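import Pool.Agent.K7.H56.M.I
import Pool.Agent.K7.H70.AS.V

/-!
# The two cases, for a field with a square root of minus three
-/

set_option autoImplicit false
set_option linter.unusedSectionVars false

namespace Pool.Agent.K7.H56.M

open NumberField IsDedekindDomain WithZero
open Pool.Agent.K7.H56
open Pool.Agent.R430
open Pool.Agent.Y696
open Pool.Agent.K7.H70.AS (exists_iota0 fr_M three_pow all_k_gen ram_mul)
open Pool.Agent.Y688 (HL)

open Polynomial in
theorem exists_M {K : Type} [Field K] [NumberField K] [IsGalois ℚ K] (hns : ∀ x : K, x ^ 2 ≠ -3) :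
    ∃ (M : Type) (_ : Field M) (_ : NumberField M) (_ : Algebra K M), IsGalois ℚ M ∧
      Module.finrank K M = 2 ∧ ∃ a : M, a ^ 2 = -3 := by
  classical
  let g : ℚ[X] := X ^ 2 + C 3
  let gK : K[X] := g.map (algebraMap ℚ K)
  have hgK : gK = X ^ 2 + C 3 := by
    show (X ^ 2 + C 3 : ℚ[X]).map (algebraMap ℚ K) = X ^ 2 + C 3
    rw [Polynomial.map_add, Polynomial.map_pow, Polynomial.map_X, Polynomial.map_C, map_ofNat]
  let M := gK.SplittingField
  have hM : NumberField M := NumberField.of_module_finite K M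
  obtain ⟨p, hp, hsp⟩ := IsGalois.is_separable_splitting_field ℚ K
  have hg0 : g ≠ 0 := (monic_X_pow_add_C (3 : ℚ) two_ne_zero).ne_zero
  have hsp2 : IsSplittingField K M (g.map (algebraMap ℚ K)) := inferInstanceAs (IsSplittingField K gK.SplittingField gK)
  have hsp3 : IsSplittingField ℚ M (p * g) := IsSplittingField.mul (F := ℚ) (K := K) M p g hp.ne_zero hg0
  have hnorm : Normal ℚ M := Normal.of_isSplittingField (p * g)
  have hgal : IsGalois ℚ M := ⟨⟩
  have hmap : gK.map (algebraMap K M) = X ^ 2 + C 3 :=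
    (congrArg (fun q => Polynomial.map (algebraMap K M) q) hgK).trans (by
      simp only [Polynomial.map_add, Polynomial.map_pow, Polynomial.map_X, Polynomial.map_ofNat, map_ofNat])
  obtain ⟨a, ha⟩ := (SplittingField.splits gK).exists_eval_eq_zero (by
    rw [hmap, degree_X_pow_add_C two_pos]
    norm_num)
  rw [hmap, eval_add, eval_pow, eval_X, eval_C] at ha
  have ha2 : a ^ 2 = -3 := eq_neg_of_add_eq_zero_left ha
  refine ⟨M, inferInstance, hM, inferInstance, hgal, ?_, a, ha2⟩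
  have htop : IntermediateField.adjoin K {a} = (⊤ : IntermediateField K M) := by
    have h1 := IsSplittingField.adjoin_rootSet M gK
    rw [← top_le_iff]
    have h2 : Algebra.adjoin K (gK.rootSet M) ≤ (IntermediateField.adjoin K {a}).toSubalgebra := by
      rw [Algebra.adjoin_le_iff]
      intro x hx
      have h3 : x ^ 2 = -3 := by
        have h4 : aeval x (X ^ 2 + C 3 : K[X]) = 0 :=
          (congrArg (fun q => aeval x q) hgK).symm.trans (mem_rootSet.1 hx).2
        rw [map_add, map_pow, aeval_X, aeval_C, map_ofNat] at h4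
        exact eq_neg_of_add_eq_zero_left h4
      have h5 : (x - a) * (x + a) = 0 := by linear_combination h3 - ha2
      have hmem : a ∈ IntermediateField.adjoin K {a} := IntermediateField.mem_adjoin_simple_self K a
      rcases mul_eq_zero.1 h5 with h6 | h6
      · rw [sub_eq_zero.1 h6]; exact hmem
      · rw [eq_neg_of_add_eq_zero_left h6]; exact neg_mem hmem
    rw [h1] at h2
    exact fun x _ => h2 (Algebra.mem_top)
  have hirr : Irreducible (Polynomial.X ^ 2 - Polynomial.C (-3 : K)) := by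
    rw [X_pow_sub_C_irreducible_iff_of_prime Nat.prime_two]
    exact fun b => hns b
  have hmin : minpoly K a = Polynomial.X ^ 2 - Polynomial.C (-3 : K) := by
    refine (minpoly.eq_of_irreducible_of_monic hirr ?_ (Polynomial.monic_X_pow_sub_C _ two_ne_zero)).symm
    rw [map_sub, map_pow, Polynomial.aeval_X, Polynomial.aeval_C, map_neg, map_ofNat, ha2, sub_self]
  have hint : IsIntegral K a := Algebra.IsIntegral.isIntegral a
  have h3 := IntermediateField.adjoin.finrank hint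
  rw [hmin, Polynomial.natDegree_X_pow_sub_C, htop, IntermediateField.finrank_top'] at h3
  exact h3

section
variable {M : Type} [Field M] [NumberField M]

lemma z_coe {z : 𝓞 M} (hz : z ^ 2 + z + 1 = 0) : (z : M) ^ 2 + z + 1 = 0 := by
  have := congrArg (fun t : 𝓞 M => (t : M)) hz
  push_cast at this
  exact this

/-- the third cyclotomic field in `M` -/
lemma exists_F0 {z : 𝓞 M} (hz : z ^ 2 + z + 1 = 0) :
    ∃ F0 : IntermediateField ℚ M, IsCyclotomicExtension {3} ℚ F0 :=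
  ⟨IntermediateField.adjoin ℚ {(z : M)},
    IsPrimitiveRoot.intermediateField_adjoin_isCyclotomicExtension ℚ (prim_three (z_coe hz))⟩

variable [IsGalois ℚ M]

lemma fin_F0 {m : ℕ} (hm : Module.finrank ℚ M = 2 ^ m) (F0 : IntermediateField ℚ M)
    [IsCyclotomicExtension {3} ℚ F0] : ∃ r : ℕ, m = r + 1 ∧ Module.finrank F0 M = 2 ^ r := by
  have h1 : Module.finrank ℚ F0 = 2 := by
    rw [IsCyclotomicExtension.finrank (n := 3) F0 (Polynomial.cyclotomic.irreducible_rat (by norm_num))]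
    decide
  have h2 := Module.finrank_mul_finrank ℚ F0 M
  rw [h1, hm] at h2
  cases m with
  | zero =>
    rw [pow_zero] at h2
    omega
  | succ r =>
    refine ⟨r, rfl, ?_⟩
    rw [pow_succ, mul_comm] at h2
    exact Nat.eq_of_mul_eq_mul_right two_pos h2

/-- the value at one, if a bad prime is ramified in `M` -/
theorem bad_M {m : ℕ} (hm : Module.finrank ℚ M = 2 ^ m) {z : 𝓞 M} (hz : z ^ 2 + z + 1 = 0)
    (h2 : Unr2 M) {l : ℕ} (hl : l.Prime) (hl3 : l ≠ 3) {w : HeightOneSpectrum (𝓞 M)}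
    (hw : (l : 𝓞 M) ∈ w.asIdeal) (hram : w.valuation M (l : M) ≠ exp (-1 : ℤ)) {x : ZMod l}
    (hx : x ^ 3 = 2) : ∃ (ι : Pool.Agent.Y688.RR →+* 𝓞 M) (d : ℕ), Module.finrank ℚ M = 2 * d ∧
      ¬ 3 ∣ d ∧ ∀ f : ℂ → ℂ, VV ι (X0 1) f →
      ∀ (L : PeriodPair) (Ω : ℂ), HL L Ω → ∀ (Γ : Type) [LinearOrderedCommGroupWithZero Γ]
        (v : Valuation ℂ Γ), v 2 < 1 → v (f 1) < v Ω ^ d := by
  obtain ⟨F0, hF0⟩ := exists_F0 hz
  obtain ⟨r, rfl, hr⟩ := fin_F0 hm F0
  obtain ⟨ι⟩ := exists_iota0 F0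
  let P : HeightOneSpectrum (𝓞 F0) := ⟨w.asIdeal.under (𝓞 F0), inferInstance, by
    intro h
    exact w.ne_bot (Ideal.eq_bot_of_comap_eq_bot h)⟩
  have hlo : w.asIdeal.LiesOver P.asIdeal := ⟨rfl⟩
  have hlP : (l : 𝓞 F0) ∈ P.asIdeal := by
    change algebraMap (𝓞 F0) (𝓞 M) (l : 𝓞 F0) ∈ w.asIdeal
    rwa [map_natCast]
  have hinert : ∃ σ : Gal(M/F0), σ ≠ 1 ∧ ∀ x : 𝓞 M, σ • x - x ∈ w.asIdeal := by
    by_contra hcon
    push Not at hcon
    apply hram
    have he := ram_one hlo fun σ hσ => by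
      by_contra hσ1
      obtain ⟨x, hx⟩ := hcon σ hσ1
      exact hx (hσ x)
    have h5 := val_of_unr hlo he (l : F0)
    rw [map_natCast (algebraMap F0 M)] at h5
    rw [h5]
    exact F0_unr hl hl3 P hlP
  obtain ⟨σ, hσ1, hσ⟩ := hinert
  have h3w : (3 : 𝓞 M) ∉ w.asIdeal := by
    intro h3
    have h9 : Nat.Coprime l 3 := (Nat.coprime_primes hl Nat.prime_three).2 hl3
    obtain ⟨u, v, huv⟩ := (Nat.isCoprime_iff_coprime.2 h9)
    apply w.isPrime.ne_top
    rw [Ideal.eq_top_iff_one]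
    have h10 : (1 : 𝓞 M) = (u : 𝓞 M) * (l : 𝓞 M) + (v : 𝓞 M) * 3 := by
      have := congrArg (fun t : ℤ => (t : 𝓞 M)) huv
      push_cast at this
      exact this.symm
    rw [h10]
    exact Ideal.add_mem _ (Ideal.mul_mem_left _ _ hw) (Ideal.mul_mem_left _ _ h3)
  obtain ⟨a, rfl⟩ := ZMod.intCast_surjective x
  have h1 : (l : ℤ) ∣ a ^ 3 - 2 := by
    rw [← ZMod.intCast_zmod_eq_zero_iff_dvd]
    push_cast
    rw [hx, sub_self]
  obtain ⟨b, hb⟩ := h1
  have hx' : algebraMap (𝓞 F0) (𝓞 M) ((a : 𝓞 F0) ^ 3 - 2) ∈ w.asIdeal := by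
    have h2 : algebraMap (𝓞 F0) (𝓞 M) ((a : 𝓞 F0) ^ 3 - 2) = (l : 𝓞 M) * (b : 𝓞 M) := by
      have h3 : ((a ^ 3 - 2 : ℤ) : 𝓞 M) = (((l : ℤ) * b : ℤ) : 𝓞 M) := by rw [hb]
      push_cast at h3
      rw [map_sub, map_pow, map_intCast, map_ofNat]
      exact h3
    rw [h2]
    exact w.asIdeal.mul_mem_right _ hw
  refine ⟨(algebraMap (𝓞 F0) (𝓞 M)).comp ι, 2 ^ r, fr_M hr, three_pow r, ?_⟩
  exact bad_val hr h2 ι hσ1 hσ h3w hx'

/-- good ramification over the third cyclotomic field -/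
theorem good_ram {z : 𝓞 M} (h2 : Unr2 M)
    (h3 : ∀ w : HeightOneSpectrum (𝓞 M), (3 : 𝓞 M) ∈ w.asIdeal → w.valuation M 3 = exp (-2 : ℤ))
    (hA : ∀ l : ℕ, l.Prime → l ≠ 3 → (l : ℤ) ∣ discr M → ∀ x : ZMod l, x ^ 3 ≠ 2)
    (F0 : IntermediateField ℚ M) [IsCyclotomicExtension {3} ℚ F0] : GoodRam F0 M := by
  intro w σ hσ hne α hα
  let P : HeightOneSpectrum (𝓞 F0) := ⟨w.asIdeal.under (𝓞 F0), inferInstance, by
    intro h
    exact w.ne_bot (Ideal.eq_bot_of_comap_eq_bot h)⟩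
  have hlo : w.asIdeal.LiesOver P.asIdeal := ⟨rfl⟩
  have hunr : P.asIdeal.ramificationIdx' w.asIdeal = 1 → False := by
    intro he
    rw [Ideal.ramificationIdx'_eq_ramificationIdx _ _ P.ne_bot] at he
    exact hne (unr_g w (Algebra.isUnramifiedAt_iff_of_isDedekindDomain.2 he) hσ)
  have hmax : w.asIdeal.IsMaximal := w.isMaximal
  obtain ⟨l, m, hm, hlw, hl, hnorm⟩ := Ideal.exists_prime_and_absNorm_eq_pow w.asIdeal
  have hlP : (l : 𝓞 F0) ∈ P.asIdeal := by
    change algebraMap (𝓞 F0) (𝓞 M) (l : 𝓞 F0) ∈ w.asIdeal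
    rwa [map_natCast]
  by_cases hl3 : l = 3
  · subst hl3
    have h3w : (3 : 𝓞 M) ∈ w.asIdeal := by exact_mod_cast hlw
    have h4 := HeightOneSpectrum.valuation_liesOver M P w (3 : F0)
    rw [map_ofNat (algebraMap F0 M), h3 w h3w] at h4
    obtain ⟨a0, ha0⟩ := exists_sqrt3 (F0 := F0)
    have h0 : P.valuation F0 a0 ≠ 0 := (Valuation.ne_zero_iff _).2 (by
      rintro rfl
      norm_num at ha0)
    obtain ⟨k, hk⟩ : ∃ k : ℤ, P.valuation F0 a0 = exp k :=
      ⟨log (P.valuation F0 a0), (exp_log h0).symm⟩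
    have h5 : P.valuation F0 3 = exp (2 * k) := by
      have : (3 : F0) = -a0 ^ 2 := by rw [ha0, neg_neg]
      rw [this, Valuation.map_neg, map_pow, hk, ← exp_nsmul, nsmul_eq_mul]
      norm_num
    rw [h5, ← exp_nsmul, nsmul_eq_mul] at h4
    have h6 := exp_injective h4
    apply hunr
    set e := P.asIdeal.ramificationIdx' w.asIdeal with he
    have h7 : (e : ℤ) * (-k) = 1 := by linarith
    have h8 : (e : ℤ) = 1 := Int.eq_one_of_dvd_one (by positivity) (Dvd.intro _ h7)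
    exact_mod_cast h8
  · have hld : (l : ℤ) ∣ discr M := by
      by_contra hcon
      have h4 := Pool.Agent.R425.unr_of_disc M hl hcon w hlw
      exact hunr (ram_nat hlo hl.ne_zero hlP h4).2
    have hNc : Nc l := by
      intro q hq hql
      have : q = l := (Nat.prime_dvd_prime_iff_eq hq hl).1 hql
      rw [this]
      exact hA l hl hl3 hld
    exact Nc.cube hNc P hlP α hα

theorem good_M {m : ℕ} (hm : Module.finrank ℚ M = 2 ^ m) {z : 𝓞 M} (hz : z ^ 2 + z + 1 = 0)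
    (h2 : Unr2 M)
    (h3 : ∀ w : HeightOneSpectrum (𝓞 M), (3 : 𝓞 M) ∈ w.asIdeal → w.valuation M 3 = exp (-2 : ℤ))
    (hA : ∀ l : ℕ, l.Prime → l ≠ 3 → (l : ℤ) ∣ discr M → ∀ x : ZMod l, x ^ 3 ≠ 2)
    (k : Type) [Field k] [NumberField k] [Algebra k M] : TwoPart k := by
  obtain ⟨F0, hF0⟩ := exists_F0 hz
  obtain ⟨r, -, hr⟩ := fin_F0 hm F0
  exact all_k_gen (F0 := F0) (K := M) core3_true ⟨r, hr⟩ (good_ram (z := z) h2 h3 hA F0)

end

end Pool.Agent.K7.H56.M
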