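import Pool.Agent.K7.H56.M.J
import Pool.Agent.R425.G.Al

/-!
# The formula modulo two over the Galois extensions of 2-power degree
-/

set_option autoImplicit false
set_option linter.unusedSectionVars false

namespace Pool.Agent.K7.H56.M

open NumberField IsDedekindDomain WithZero
open Pool.Agent.K7.H56
open Pool.Agent.R430
open Pool.Agent.Y696
open Pool.Agent.K7.H70.AS (exists_iota0 fr_M three_pow all_k_gen gal2')
open Pool.Agent.Y688 (HL)
open scoped Classical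

lemma exists_z {M : Type} [Field M] [NumberField M] {a : M} (ha : a ^ 2 = -3) :
    ∃ z : 𝓞 M, z ^ 2 + z + 1 = 0 := by
  have h : ((a - 1) / 2) ^ 2 + (a - 1) / 2 + 1 = 0 := by
    field_simp
    linear_combination ha
  refine ⟨⟨(a - 1) / 2, ?_⟩, ?_⟩
  · refine ⟨Polynomial.X ^ 2 + Polynomial.X + 1, by monicity!, ?_⟩
    simp only [Polynomial.eval₂_add, Polynomial.eval₂_pow, Polynomial.eval₂_X, Polynomial.eval₂_one]
    exact h
  · apply RingOfIntegers.ext
    push_cast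
    exact h

/-- the local facts -/
def Loc (k : Type) [Field k] [NumberField k] : Prop :=
  ∀ v : HeightOneSpectrum (𝓞 k),
    WeierstrassCurve.IsMinimal (v.adicCompletionIntegers k)
      ((E27 k).baseChange (v.adicCompletion k)) ∧
    ∃ H : AddSubgroup ((E27 k).baseChange (v.adicCompletion k)).toAffine.Point,
      (∀ P, P ∈ H ↔ NonsingRed Valued.v ((E27 k).baseChange (v.adicCompletion k)) P) ∧
      Odd H.index

lemma G4.loc_small {K₀ K : Type} [Field K₀] [NumberField K₀] [Field K] [NumberField K]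
    [Algebra K₀ K] (hGK : G4 K) : Loc K₀ := fun v => ⟨hGK.min_small v, by
  obtain ⟨H, k7, k8⟩ := hGK.tam_small v
  exact ⟨H, fun P => (k7 P).trans (by cases P <;> rfl), k8⟩⟩

lemma G4.loc_big {K : Type} [Field K] [NumberField K] (hGK : G4 K) : Loc K := fun v => ⟨hGK.min_all v, by
  obtain ⟨H, k7, k8⟩ := hGK.tam_all v
  exact ⟨H, fun P => (k7 P).trans (by cases P <;> rfl), k8⟩⟩

section
variable {K M : Type} [Field K] [NumberField K] [Field M] [NumberField M] [Algebra K M]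
  [IsGalois K M]

/-- the primes not above three -/
lemma up_nat (h2 : Module.finrank K M = 2) (hns : ∀ x : K, x ^ 2 ≠ -3) {z : 𝓞 M}
    (hz : z ^ 2 + z + 1 = 0) {w : HeightOneSpectrum (𝓞 M)} (h3 : (3 : 𝓞 M) ∉ w.asIdeal)
    {v₀ : HeightOneSpectrum (𝓞 K)} (hlo : w.asIdeal.LiesOver v₀.asIdeal) (x : K) :
    w.valuation M (algebraMap K M x) = v₀.valuation K x := by
  have he := ram_one hlo fun σ hσ => by
    by_contra hne
    have h4 := hσ z
    rw [act_z h2 hns hz hne] at h4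
    apply h3
    have : (3 : 𝓞 M) = (-1 - z - z) * (1 + 2 * z) := by linear_combination 4 * hz
    rw [this]
    exact Ideal.mul_mem_right _ _ h4
  exact val_of_unr hlo he x

end

lemma not_three {M : Type} [Field M] [NumberField M] {l : ℕ} (hl : l.Prime) (hl3 : l ≠ 3)
    {w : HeightOneSpectrum (𝓞 M)} (hw : (l : 𝓞 M) ∈ w.asIdeal) : (3 : 𝓞 M) ∉ w.asIdeal := by
  intro h3
  have h9 : Nat.Coprime l 3 := (Nat.coprime_primes hl Nat.prime_three).2 hl3
  obtain ⟨u, v, huv⟩ := (Nat.isCoprime_iff_coprime.2 h9)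
  apply w.isPrime.ne_top
  rw [Ideal.eq_top_iff_one]
  have h10 : (1 : 𝓞 M) = (u : 𝓞 M) * (l : 𝓞 M) + (v : 𝓞 M) * 3 := by
    have := congrArg (fun t : ℤ => (t : 𝓞 M)) huv
    push_cast at this
    exact this.symm
  rw [h10]
  exact Ideal.add_mem _ (Ideal.mul_mem_left _ _ hw) (Ideal.mul_mem_left _ _ h3)

/-- the condition on the primes -/
def AA (K : Type) [Field K] [NumberField K] : Prop :=
  ∀ l : ℕ, l.Prime → l ≠ 3 → (l : ℤ) ∣ discr K → ∀ x : ZMod l, x ^ 3 ≠ 2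

section
variable {K : Type} [Field K] [NumberField K] [IsGalois ℚ K]

lemma three_own {a : K} (ha : a ^ 2 = -3)
    (h3 : ∀ v : HeightOneSpectrum (𝓞 K), (3 : 𝓞 K) ∈ v.asIdeal →
      v.valuation K 3 = exp (-1 : ℤ) ∨ v.valuation K 3 = exp (-2 : ℤ))
    (v : HeightOneSpectrum (𝓞 K)) (hv : (3 : 𝓞 K) ∈ v.asIdeal) :
    v.valuation K 3 = exp (-2 : ℤ) := by
  rcases h3 v hv with h | h
  · exfalso
    have h0 : v.valuation K a ≠ 0 := (Valuation.ne_zero_iff _).2 (by
      rintro rfl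
      norm_num at ha)
    obtain ⟨k, hk⟩ : ∃ k : ℤ, v.valuation K a = exp k :=
      ⟨log (v.valuation K a), (exp_log h0).symm⟩
    have h5 : v.valuation K 3 = exp (2 * k) := by
      have : (3 : K) = -a ^ 2 := by rw [ha, neg_neg]
      rw [this, Valuation.map_neg, map_pow, hk, ← exp_nsmul, nsmul_eq_mul]
      norm_num
    rw [h] at h5
    have h6 := exp_injective h5
    omega
  · exact h

/-- **the good case** -/
theorem good_K {n : ℕ} (hn : Module.finrank ℚ K = 2 ^ n) (h2 : Unr2 K)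
    (h3 : ∀ v : HeightOneSpectrum (𝓞 K), (3 : 𝓞 K) ∈ v.asIdeal →
      v.valuation K 3 = exp (-1 : ℤ) ∨ v.valuation K 3 = exp (-2 : ℤ))
    (hA : AA K) : TwoPart K := by
  by_cases hns : ∀ x : K, x ^ 2 ≠ -3
  · obtain ⟨M, _, _, _, hgal, hfr, a, ha⟩ := exists_M hns
    have hgal2 : IsGalois K M := gal2' hfr
    obtain ⟨z, hz⟩ := exists_z ha
    have hfM : Module.finrank ℚ M = 2 ^ (n + 1) := by
      rw [← Module.finrank_mul_finrank ℚ K M, hn, hfr, pow_succ]
    refine good_M hfM hz (up_two hfr hns hz h2) (up_three hfr hns hz h3) ?_ K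
    intro l hl hl3 hld
    apply hA l hl hl3
    by_contra hcon
    refine Pool.Agent.R425.not_disc M hl ?_ hld
    intro w hw
    let v₀ : HeightOneSpectrum (𝓞 K) := ⟨w.asIdeal.under (𝓞 K), inferInstance, by
      intro h
      exact w.ne_bot (Ideal.eq_bot_of_comap_eq_bot h)⟩
    have hlo : w.asIdeal.LiesOver v₀.asIdeal := ⟨rfl⟩
    have h4 := up_nat hfr hns hz (not_three hl hl3 hw) hlo (l : K)
    rw [map_natCast (algebraMap K M)] at h4
    rw [h4]
    refine Pool.Agent.R425.unr_of_disc K hl hcon v₀ ?_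
    change algebraMap (𝓞 K) (𝓞 M) ((l : ℕ) : 𝓞 K) ∈ w.asIdeal
    rwa [map_natCast]
  · push Not at hns
    obtain ⟨a, ha⟩ := hns
    obtain ⟨z, hz⟩ := exists_z ha
    exact good_M hn hz h2 (three_own ha h3) hA K

/-- **the bad case** -/
theorem bad_K {n : ℕ} (hn : Module.finrank ℚ K = 2 ^ n) (h2 : Unr2 K)
    (h3 : ∀ v : HeightOneSpectrum (𝓞 K), (3 : 𝓞 K) ∈ v.asIdeal →
      v.valuation K 3 = exp (-1 : ℤ) ∨ v.valuation K 3 = exp (-2 : ℤ))
    {l : ℕ} (hl : l.Prime) (hl3 : l ≠ 3) (hld : (l : ℤ) ∣ discr K) {x : ZMod l} (hx : x ^ 3 = 2) :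
    BadL K ∧ Loc K := by
  obtain ⟨v₀, hv₀, hne⟩ : ∃ v₀ : HeightOneSpectrum (𝓞 K), ((l : ℕ) : 𝓞 K) ∈ v₀.asIdeal ∧
      v₀.valuation K (l : K) ≠ exp (-1 : ℤ) := by
    by_contra hcon
    push Not at hcon
    exact Pool.Agent.R425.not_disc K hl hcon hld
  by_cases hns : ∀ x : K, x ^ 2 ≠ -3
  · obtain ⟨M, _, _, _, hgal, hfr, a, ha⟩ := exists_M hns
    have hgal2 : IsGalois K M := gal2' hfr
    obtain ⟨z, hz⟩ := exists_z ha
    have hfM : Module.finrank ℚ M = 2 ^ (n + 1) := by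
      rw [← Module.finrank_mul_finrank ℚ K M, hn, hfr, pow_succ]
    have h2M := up_two hfr hns hz h2
    have h3M := up_three hfr hns hz h3
    have hG : G4 M := ⟨⟨n + 1, hfM⟩, ⟨z, z_coe hz⟩, h2M, h3M⟩
    obtain ⟨w, hlo⟩ := exists_above (K := M) v₀
    have hw : ((l : ℕ) : 𝓞 M) ∈ w.asIdeal := by
      have h4 : algebraMap (𝓞 K) (𝓞 M) ((l : ℕ) : 𝓞 K) ∈ w.asIdeal := by
        have := hlo.over
        rw [this] at hv₀
        exact hv₀
      rwa [map_natCast] at h4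
    obtain ⟨ι, d, hd, h3d, hB⟩ := bad_M hfM hz h2M hl hl3 hw (fun h => hne (ram_nat hlo hl.ne_zero hv₀ h).1) hx
    exact ⟨badL_small hG ι hd h3d hB hfr hns, hG.loc_small⟩
  · push Not at hns
    obtain ⟨a, ha⟩ := hns
    obtain ⟨z, hz⟩ := exists_z ha
    have hG : G4 K := ⟨⟨n, hn⟩, ⟨z, z_coe hz⟩, h2, three_own ha h3⟩
    obtain ⟨ι, d, hd, h3d, hB⟩ := bad_M hn hz h2 hl hl3 hv₀ hne hx
    exact ⟨badL_big hG ι hd h3d hB, hG.loc_big⟩

end

end Pool.Agent.K7.H56.M
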